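import Pool.Agent.U722.FF.Pd3

set_option autoImplicit false

namespace U722.FF

open MulAction

/-- finitely generated free groups -/
def FFr (H : Type) [Group H] : Prop :=
  Group.FG H ∧ ∃ (X : Type) (f : H →* FreeGroup X), Function.Injective f

/-- trivial or infinite cyclic groups -/
def Cy (H : Type) [Group H] : Prop := Subsingleton H ∨ Nonempty (H ≃* Multiplicative ℤ)

theorem FFr_of_Cy {H : Type} [Group H] (h : Cy H) : FFr H := by
  unfold Cy at h
  rcases h with h | h
  · exact ⟨inferInstance, PUnit, 1, fun a b _ => Subsingleton.elim _ _⟩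
  · obtain ⟨e⟩ := h
    refine ⟨?_, Unit, (zpowersHom (FreeGroup Unit) (FreeGroup.of ())).comp e.toMonoidHom, ?_⟩
    · have : Group.FG (Multiplicative ℤ) := inferInstance
      exact Group.fg_of_surjective (f := e.symm.toMonoidHom) e.symm.surjective
    · have hz : Function.Injective (zpowersHom (FreeGroup Unit) (FreeGroup.of ())) := by
        intro a b hab
        have h1 : FreeGroup.of () ^ (Multiplicative.toAdd a)
            = FreeGroup.of () ^ (Multiplicative.toAdd b) := hab
        have h2 := congrArg (FreeGroup.lift (fun _ : Unit => Multiplicative.ofAdd (1 : ℤ))) h1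
        rw [map_zpow, map_zpow, FreeGroup.lift_apply_of, ← ofAdd_zsmul, ← ofAdd_zsmul] at h2
        have h3 := congrArg Multiplicative.toAdd h2
        simp only [toAdd_ofAdd, smul_eq_mul, mul_one] at h3
        exact Multiplicative.toAdd.injective h3
      exact hz.comp e.injective

theorem STRH (n : ℕ) (G : Type) [Group G] (ρ : G →* GL (Fin 2) (MvPolynomial (Fin n) ℤ))
    (hρ : Function.Injective ρ) (hnt : NoTor G) (hfg : Group.FG G) (hz : ¬ HasZ2 G) :
    OnTree G (fun H _ => FFr H) (fun H _ => Cy H) := by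
  have h1 : ∀ H : Subgroup G, Group.FG H → (∀ a b : H, a * b = b * a) → Cy H := by
    intro H hH hc
    exact CYC H hc hH (NoTor_le H.subtype H.subtype_injective hnt)
      (fun h => hz (HasZ2_le H.subtype H.subtype_injective h))
  refine STR n G ρ hρ hnt hfg (fun H _ => FFr H) (fun H _ => Cy H)
    (fun H a b => FFr_of_Cy (h1 H a b)) h1 ?_ (fun H _ h => FFr_of_Cy (Or.inl h))
    (fun H _ h => Or.inl h)
  rintro H hH ⟨σ, hσ⟩
  refine ⟨hH, ?_⟩
  obtain ⟨V, E, iV, iE, T, s, t, hT, hO, hV, hE, hP, hQ⟩ := GZ_tree FAR H σ hσ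
    (NoTor_le H.subtype H.subtype_injective hnt) hH
    (fun H _ => Subsingleton H) (fun H _ => Subsingleton H) (fun H _ h => h) (fun H _ h => h)
  exact FREE H V E T s t hT hO hP

/-- the generators -/
def ba (p q : ℤ) : BS p q := PresentedGroup.of false

def bt (p q : ℤ) : BS p q := PresentedGroup.of true

theorem brel (p q : ℤ) : bt p q * ba p q ^ p * (bt p q)⁻¹ = ba p q ^ q := by
  have h1 : (PresentedGroup.mk
      ({FreeGroup.of true * FreeGroup.of false ^ p * (FreeGroup.of true)⁻¹ *
        (FreeGroup.of false ^ q)⁻¹} : Set (FreeGroup Bool)))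
      (FreeGroup.of true * FreeGroup.of false ^ p * (FreeGroup.of true)⁻¹ *
        (FreeGroup.of false ^ q)⁻¹) = 1 :=
    PresentedGroup.one_of_mem (Set.mem_singleton _)
  rw [map_mul, map_mul, map_mul, map_inv, map_inv, map_zpow, map_zpow] at h1
  exact mul_inv_eq_one.1 h1

/-- no Baumslag-Solitar subgroups -/
theorem NoBS (n : ℕ) (G : Type) [Group G] (ρ : G →* GL (Fin 2) (MvPolynomial (Fin n) ℤ))
    (hρ : Function.Injective ρ) (hz : ¬ HasZ2 G) (p q : ℤ) (hp : p ≠ 0) (hq : q ≠ 0)
    (f : BS p q →* G) : ¬ Function.Injective f := by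
  intro hf
  have hinj : Function.Injective (ρ.comp f) := hρ.comp hf
  have h2 : ∀ k : ℕ, 0 < k → (ρ.comp f (ba p q)) ^ k ≠ 1 := by
    intro k hk h3
    have h5 : (ba p q) ^ k = 1 := by
      apply hinj
      rw [map_one, ← h3]
      exact map_pow (ρ.comp f) (ba p q) k
    exact BSI p q hp hq k hk h5
  have h4 : (ρ.comp f) (bt p q) * (ρ.comp f) (ba p q) ^ p * ((ρ.comp f) (bt p q))⁻¹
      = (ρ.comp f) (ba p q) ^ q := by
    rw [← map_zpow, ← map_zpow, ← map_inv, ← map_mul, ← map_mul, brel]
  exact hz (HasZ2_le f hf (BSZ p q hp (BSL n _ _ p q h2 hp h4)))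

end U722.FF
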