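import Pool.Agent.U722.FF.Stm2

set_option autoImplicit false
set_option linter.unusedSectionVars false

/-! Project LI: torsion-free subgroups of `GL_2(ℤ[x_1..x_n])` are locally indicable. -/

namespace U722.FF

open Matrix MulAction

/-- homomorphisms to the rational numbers -/
def Hq (H : Type) [Group H] : Submodule ℚ (H → ℚ) where
  carrier := {f | ∀ a b, f (a * b) = f a + f b}
  add_mem' := by
    intro f g hf hg a b
    simp only [Set.mem_ofPred_eq] at hf hg
    simp only [Pi.add_apply, hf, hg]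
    ring
  zero_mem' := by
    intro a b
    simp
  smul_mem' := by
    intro c f hf a b
    simp only [Set.mem_ofPred_eq] at hf
    simp only [Pi.smul_apply, hf, smul_eq_mul]
    ring

/-- the groups of vertices: finitely generated torsion-free abelian groups and free groups -/
def VT (H : Type) [Group H] : Prop := Group.FG H ∧ NoTor H ∧
  ((∀ a b : H, a * b = b * a) ∨ ∃ (X : Type) (f : H →* FreeGroup X), Function.Injective f)

/-- the groups of edges: finitely generated torsion-free abelian groups -/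
def ET (H : Type) [Group H] : Prop := Group.FG H ∧ NoTor H ∧ ∀ a b : H, a * b = b * a

/-- compatible families of homomorphisms on the stabilizers of vertices -/
structure Fam (G : Type) {V E : Type} [Group G] [MulAction G V] [MulAction G E] (s t : E → V)
    (φ : V → G → ℚ) : Prop where
  hom : ∀ v, ∀ a ∈ stabilizer G v, ∀ b ∈ stabilizer G v, φ v (a * b) = φ v a + φ v b
  eqv : ∀ (g : G) (v : V), ∀ a ∈ stabilizer G v, φ (g • v) (g * a * g⁻¹) = φ v a
  comp : ∀ e, ∀ a ∈ stabilizer G e, φ (s e) a = φ (t e) a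

/-- gluing -/
def S_GLUE : Prop := ∀ (G V E : Type) [Group G] [MulAction G V] [MulAction G E]
  (T : SimpleGraph V) (s t : E → V), T.IsTree → OE G T s t → ∀ φ : V → G → ℚ, Fam G s t φ →
  (∃ v, ∃ a ∈ stabilizer G v, φ v a ≠ 0) →
  ∃ f : G → ℚ, (∀ a b, f (a * b) = f a + f b) ∧ ∃ a, f a ≠ 0

/-- dimension count -/
def S_DIM : Prop := ∀ (G V E : Type) [Group G] [MulAction G V] [MulAction G E] (s t : E → V),
  (∀ (g : G) (e : E), s (g • e) = g • s e) → (∀ (g : G) (e : E), t (g • e) = g • t e) →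
  FinOrb G V → FinOrb G E → (∀ v : V, Module.Finite ℚ (Hq ↥(stabilizer G v))) →
  (∀ e : E, Module.Finite ℚ (Hq ↥(stabilizer G e))) →
  ∀ (r : V) (c : orbitRel.Quotient G E → orbitRel.Quotient G V), Function.Injective c →
  (∀ q, c q ≠ Quotient.mk'' r) →
  (∀ (e : E) (v : V), c (Quotient.mk'' e) = Quotient.mk'' v →
    Module.finrank ℚ (Hq ↥(stabilizer G e)) ≤ Module.finrank ℚ (Hq ↥(stabilizer G v))) →
  0 < Module.finrank ℚ (Hq ↥(stabilizer G r)) →
  ∃ φ : V → G → ℚ, Fam G s t φ ∧ ∃ v, ∃ a ∈ stabilizer G v, φ v a ≠ 0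

open Classical in
/-- invariant potential of an orbit of edges -/
def Pot (G : Type) {V E : Type} [Group G] [MulAction G V] [MulAction G E] (s t : E → V) (e0 : E) :
    Prop := ∃ f : V → ℤ, (∀ (g : G) (v : V), f (g • v) = f v) ∧
  ∀ e, f (t e) - f (s e) = if e ∈ orbit G e0 then 1 else 0

def S_POT : Prop := ∀ (G V E : Type) [Group G] [MulAction G V] [MulAction G E]
  (T : SimpleGraph V) (s t : E → V), T.IsTree → OE G T s t → ¬ Ind G → ∀ e0 : E, Pot G s t e0

def S_CHILD : Prop := ∀ (G V E : Type) [Group G] [MulAction G V] [MulAction G E]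
  (T : SimpleGraph V) (s t : E → V), T.IsTree → OE G T s t → (∀ e0 : E, Pot G s t e0) → ∀ r : V,
  ∃ c : orbitRel.Quotient G E → orbitRel.Quotient G V, Function.Injective c ∧
    (∀ q, c q ≠ Quotient.mk'' r) ∧
    ∀ e : E, c (Quotient.mk'' e) = Quotient.mk'' (s e) ∨ c (Quotient.mk'' e) = Quotient.mk'' (t e)

def S_HQF : Prop := ∀ (H : Type) [Group H], Group.FG H → Module.Finite ℚ (Hq H)

def S_HQP : Prop := ∀ (H : Type) [Group H], VT H → Nontrivial H → 0 < Module.finrank ℚ (Hq H)

def S_HQL : Prop := ∀ (K H : Type) [Group K] [Group H] (j : K →* H), Function.Injective j →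
  VT H → ET K → Module.finrank ℚ (Hq K) ≤ Module.finrank ℚ (Hq H)

def S_QZ : Prop := ∀ (G : Type) [Group G], Group.FG G →
  (∃ f : G → ℚ, (∀ a b, f (a * b) = f a + f b) ∧ ∃ a, f a ≠ 0) → Ind G

def S_FRI : Prop := ∀ (G : Type) [Group G],
  (∃ (X : Type) (f : G →* FreeGroup X), Function.Injective f) → Nontrivial G → Ind G

end U722.FF
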