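import Pool.Agent.U722.FF.Fin2
import Pool.Agent.U722.FF.Stm3
import Pool.Agent.U27.LIP.GLUE
import Pool.Agent.U869.LIP.DIM
import Pool.Agent.U873.LIP.POT
import Pool.Agent.U580.LIP.CHILD
import Pool.Agent.U908.LIP.HQ

set_option autoImplicit false

/-! Torsion-free subgroups of `GL_2(ℤ[x_1..x_n])` are locally indicable. -/

namespace U722.FF

open MulAction

theorem GLUE : S_GLUE := Pool.Agent.U27.LIP.t_GLUE
theorem DIM : S_DIM := Pool.Agent.U869.LIP.t_DIM
theorem POT : S_POT := Pool.Agent.U873.LIP.t_POT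
theorem CHILD : S_CHILD := Pool.Agent.U580.LIP.t_CHILD
theorem HQF : S_HQF := Pool.Agent.U908.LIP.t_HQF
theorem HQP : S_HQP := Pool.Agent.U908.LIP.t_HQP
theorem HQL : S_HQL := Pool.Agent.U908.LIP.t_HQL
theorem QZ : S_QZ := Pool.Agent.U908.LIP.t_QZ
theorem FRI : S_FRI := Pool.Agent.U908.LIP.t_FRI

/-- finite graphs of free and abelian groups with abelian edge groups are indicable -/
theorem Ind_of_tree (G : Type) [Group G] [Nontrivial G] (hfg : Group.FG G)
    (h : OnTree G (fun H _ => VT H) (fun H _ => ET H)) : Ind G := by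
  obtain ⟨V, E, iV, iE, T, s, t, hT, hO, hV, hE, hP, hQ⟩ := h
  by_contra hind
  by_cases htriv : ∀ v : V, Subsingleton ↥(stabilizer G v)
  · exact hind (FRI G (FREE G V E T s t hT hO htriv) inferInstance)
  · push Not at htriv
    obtain ⟨r, hr⟩ := htriv
    have hpot := POT G V E T s t hT hO hind
    obtain ⟨c, hc1, hc2, hc3⟩ := CHILD G V E T s t hT hO hpot r
    have hpos : 0 < Module.finrank ℚ (Hq ↥(stabilizer G r)) :=
      HQP _ (hP r) hr
    have hle : ∀ (e : E) (v w : V), w ∈ orbit G v → (∀ g ∈ stabilizer G e, g • w = w) →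
        Module.finrank ℚ (Hq ↥(stabilizer G e)) ≤ Module.finrank ℚ (Hq ↥(stabilizer G v)) := by
      rintro e v w ⟨g, rfl⟩ hfix
      let j : ↥(stabilizer G e) →* ↥(stabilizer G v) :=
        { toFun := fun x => ⟨g⁻¹ * x.1 * g, by
            have h1 := hfix x.1 x.2
            rw [mem_stabilizer_iff, mul_smul, mul_smul]
            change x.1 • g • v = g • v at h1
            rw [h1, inv_smul_smul]⟩
          map_one' := by
            apply Subtype.ext
            simp
          map_mul' := by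
            intro x y
            apply Subtype.ext
            simp [mul_assoc] }
      refine HQL _ _ j ?_ (hP v) (hQ e)
      intro x y hxy
      have h1 : g⁻¹ * x.1 * g = g⁻¹ * y.1 * g := congrArg Subtype.val hxy
      exact Subtype.ext (mul_left_cancel (mul_right_cancel h1))
    have hdim := DIM G V E s t hO.s_act hO.t_act hV hE (fun v => HQF _ (hP v).1)
      (fun e => HQF _ (hQ e).1) r c hc1 hc2 (by
        intro e v hev
        rcases hc3 e with h1 | h1
        · rw [h1] at hev
          have h2 : s e ∈ orbit G v := orbitRel_apply.1 (Quotient.exact hev)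
          exact hle e v (s e) h2 (fun g hg => by rw [← hO.s_act, mem_stabilizer_iff.1 hg])
        · rw [h1] at hev
          have h2 : t e ∈ orbit G v := orbitRel_apply.1 (Quotient.exact hev)
          exact hle e v (t e) h2 (fun g hg => by rw [← hO.t_act, mem_stabilizer_iff.1 hg])) hpos
    obtain ⟨φ, h1, h2⟩ := hdim
    exact hind (QZ G hfg (GLUE G V E T s t hT hO φ h1 h2))

/-- torsion-free subgroups of `GL_2(ℤ[x_1..x_n])` are locally indicable -/
theorem LI (n : ℕ) (G : Type) [Group G] [Nontrivial G]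
    (ρ : G →* GL (Fin 2) (MvPolynomial (Fin n) ℤ)) (hρ : Function.Injective ρ) (hnt : NoTor G)
    (hfg : Group.FG G) : Ind G := by
  have hsub : ∀ (H : Type) [Group H] [Subsingleton H], Group.FG H ∧ NoTor H := by
    intro H _ _
    exact ⟨inferInstance, fun g k _ _ => Subsingleton.elim _ _⟩
  have hn : ∀ H : Subgroup G, NoTor H := fun H => NoTor_le H.subtype H.subtype_injective hnt
  refine Ind_of_tree G hfg (STR n G ρ hρ hnt hfg (fun H _ => VT H) (fun H _ => ET H)
    (fun H h1 h2 => ⟨h1, hn H, Or.inl h2⟩) (fun H h1 h2 => ⟨h1, hn H, h2⟩) ?_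
    (fun H _ _ => ⟨(hsub H).1, (hsub H).2, Or.inl fun a b => Subsingleton.elim _ _⟩)
    (fun H _ _ => ⟨(hsub H).1, (hsub H).2, fun a b => Subsingleton.elim _ _⟩))
  rintro H h1 ⟨σ, hσ⟩
  refine ⟨h1, hn H, Or.inr ?_⟩
  obtain ⟨V, E, iV, iE, T, s, t, hT, hO, hV, hE, hP, hQ⟩ := GZ_tree FAR H σ hσ (hn H) h1
    (fun H _ => Subsingleton H) (fun H _ => Subsingleton H) (fun H _ h => h) (fun H _ h => h)
  exact FREE H V E T s t hT hO hP

end U722.FF
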