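import Mathlib

set_option autoImplicit false

/-! Subgroups of `GL_2(ℤ[x_1..x_n])` contain no nontrivial perfect groups. -/

namespace U722.FF

open Matrix

/-- no nontrivial perfect subgroups -/
def NoPerf (G : Type) [Group G] : Prop := ∀ P : Subgroup G, ⁅P, P⁆ = P → P = ⊥

theorem map_perf {G H : Type} [Group G] [Group H] (f : G →* H) (P : Subgroup G)
    (h : ⁅P, P⁆ = P) : ⁅P.map f, P.map f⁆ = P.map f := by
  rw [← Subgroup.map_commutator, h]

theorem NoPerf_of_inj {G H : Type} [Group G] [Group H] (f : G →* H) (hf : Function.Injective f)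
    (h : NoPerf H) : NoPerf G := by
  intro P hP
  have h1 := h _ (map_perf f P hP)
  rwa [Subgroup.map_eq_bot_iff_of_injective _ hf] at h1

theorem dec1 : ∀ a b c d a' b' c' d' : ZMod 2, a * d - b * c ≠ 0 → a' * d' - b' * c' ≠ 0 →
    (!![a, b; c, d] * !![a', b'; c', d'] * (!![d, b; c, a] * !![d', b'; c', a'])) ^ 3 =
      (1 : Matrix (Fin 2) (Fin 2) (ZMod 2)) := by
  decide +kernel

theorem dec2 : ∀ a b c d a' b' c' d' : ZMod 2,
    (!![a, b; c, d] : Matrix (Fin 2) (Fin 2) (ZMod 2)) ^ 3 = 1 →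
    (!![a', b'; c', d'] : Matrix (Fin 2) (Fin 2) (ZMod 2)) ^ 3 = 1 →
    (!![a, b; c, d] * !![a', b'; c', d'] : Matrix (Fin 2) (Fin 2) (ZMod 2)) =
      !![a', b'; c', d'] * !![a, b; c, d] := by
  decide +kernel

/-- the elements of order dividing three -/
def A3 : Subgroup (GL (Fin 2) (ZMod 2)) where
  carrier := {g | g.1 ^ 3 = 1}
  one_mem' := by
    show (1 : Matrix (Fin 2) (Fin 2) (ZMod 2)) ^ 3 = 1
    rw [one_pow]
  mul_mem' := by
    intro g h hg hh
    have hg' : g.1 ^ 3 = 1 := hg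
    have hh' : h.1 ^ 3 = 1 := hh
    have h1 : g.1 * h.1 = h.1 * g.1 := by
      have h2 := dec2 (g.1 0 0) (g.1 0 1) (g.1 1 0) (g.1 1 1) (h.1 0 0) (h.1 0 1) (h.1 1 0) (h.1 1 1)
      rw [← Matrix.eta_fin_two, ← Matrix.eta_fin_two] at h2
      exact h2 hg' hh'
    show (g.1 * h.1) ^ 3 = 1
    rw [Commute.mul_pow h1, hg', hh', one_mul]
  inv_mem' := by
    intro g hg
    have hg' : g.1 ^ 3 = 1 := hg
    have h1 : g ^ 3 = 1 := Units.ext hg'
    show (g⁻¹).1 ^ 3 = 1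
    have h2 : (g⁻¹) ^ 3 = 1 := by rw [inv_pow, h1, inv_one]
    exact congrArg Units.val h2

theorem np2 : NoPerf (GL (Fin 2) (ZMod 2)) := by
  intro P hP
  have hinv : ∀ g : GL (Fin 2) (ZMod 2), (g⁻¹).1 = !![g.1 1 1, g.1 0 1; g.1 1 0, g.1 0 0] := by
    intro g
    have hd : g.1.det = 1 := by
      have h0 : g.1.det ≠ 0 := by
        have := (Matrix.isUnit_iff_isUnit_det g.1).1 g.isUnit
        exact this.ne_zero
      generalize g.1.det = z at h0
      revert z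
      decide
    have h1 : g.1 * !![g.1 1 1, g.1 0 1; g.1 1 0, g.1 0 0] = 1 := by
      have h2 : ∀ x : ZMod 2, -x = x := by decide
      have h3 : g.1 0 0 * g.1 1 1 - g.1 0 1 * g.1 1 0 = 1 := by rw [← Matrix.det_fin_two, hd]
      have h4 : ∀ x : ZMod 2, x + x = 0 := by decide
      rw [Matrix.eta_fin_two g.1]
      ext i j
      fin_cases i <;> fin_cases j <;> simp [Matrix.mul_apply, Fin.sum_univ_two]
      · linear_combination h3 + h4 (g.1 0 1 * g.1 1 0)
      · linear_combination h4 (g.1 0 0 * g.1 0 1)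
      · linear_combination h4 (g.1 1 0 * g.1 1 1)
      · linear_combination h3 + h4 (g.1 0 1 * g.1 1 0)
    have h5 : g⁻¹.1 = g⁻¹.1 * (g.1 * !![g.1 1 1, g.1 0 1; g.1 1 0, g.1 0 0]) := by
      rw [h1, mul_one]
    rw [h5, ← mul_assoc, Units.inv_mul, one_mul]
  have h1 : P ≤ A3 := by
    rw [← hP, Subgroup.commutator_le]
    intro g _ h _
    show ((g * h * g⁻¹ * h⁻¹ : GL (Fin 2) (ZMod 2)).1) ^ 3 = 1
    have hdet : ∀ g : GL (Fin 2) (ZMod 2), g.1 0 0 * g.1 1 1 - g.1 0 1 * g.1 1 0 ≠ 0 := by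
      intro g
      rw [← Matrix.det_fin_two]
      exact ((Matrix.isUnit_iff_isUnit_det g.1).1 g.isUnit).ne_zero
    have h2 := dec1 (g.1 0 0) (g.1 0 1) (g.1 1 0) (g.1 1 1) (h.1 0 0) (h.1 0 1) (h.1 1 0) (h.1 1 1)
      (hdet g) (hdet h)
    rw [← hinv, ← hinv, ← Matrix.eta_fin_two, ← Matrix.eta_fin_two] at h2
    rw [← h2]
    show (g.1 * h.1 * (g⁻¹).1 * (h⁻¹).1) ^ 3 = _
    rw [mul_assoc (g.1 * h.1)]
  rw [← hP, eq_bot_iff, Subgroup.commutator_le]
  intro g hg h hh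
  have hg' : g.1 ^ 3 = 1 := h1 hg
  have hh' : h.1 ^ 3 = 1 := h1 hh
  have h2 := dec2 (g.1 0 0) (g.1 0 1) (g.1 1 0) (g.1 1 1) (h.1 0 0) (h.1 0 1) (h.1 1 0) (h.1 1 1)
  rw [← Matrix.eta_fin_two, ← Matrix.eta_fin_two] at h2
  have h3 : g * h = h * g := Units.ext (h2 hg' hh')
  rw [Subgroup.mem_bot, commutatorElement_def, h3]
  group

/-- the kernels of the reductions modulo the powers of an ideal -/
theorem step {R : Type} [CommRing R] (I : Ideal R) (P : Subgroup (GL (Fin 2) R)) (hP : ⁅P, P⁆ = P)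
    (k : ℕ) (hk : 1 ≤ k) (h : ∀ g ∈ P, ∀ i j, g.1 i j - (1 : Matrix (Fin 2) (Fin 2) R) i j ∈ I ^ k) :
    ∀ g ∈ P, ∀ i j, g.1 i j - (1 : Matrix (Fin 2) (Fin 2) R) i j ∈ I ^ (k + 1) := by
  have h0 : P ≤ (Matrix.GeneralLinearGroup.map (n := Fin 2)
      (Ideal.Quotient.mk (I ^ (k + 1)))).ker := by
    rw [← hP, Subgroup.commutator_le]
    intro g hg g' hg'
    rw [MonoidHom.mem_ker, map_commutatorElement, commutatorElement_eq_one_iff_mul_comm, ← map_mul,
      ← map_mul]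
    apply Units.ext
    ext1 i j
    show Ideal.Quotient.mk (I ^ (k + 1)) ((g.1 * g'.1) i j) =
      Ideal.Quotient.mk (I ^ (k + 1)) ((g'.1 * g.1) i j)
    rw [Ideal.Quotient.eq]
    have h0 : ∀ a b : Matrix (Fin 2) (Fin 2) R,
        a * b - b * a = (a - 1) * (b - 1) - (b - 1) * (a - 1) := by
      intro a b
      rw [sub_mul, mul_sub, mul_sub, sub_mul, mul_sub, mul_sub]
      simp only [mul_one, one_mul]
      abel
    have h1 : (g.1 * g'.1) i j - (g'.1 * g.1) i j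
        = ((g.1 - 1) * (g'.1 - 1)) i j - ((g'.1 - 1) * (g.1 - 1)) i j :=
      congrFun (congrFun (h0 g.1 g'.1) i) j
    rw [h1]
    have h2 : ∀ a b : Matrix (Fin 2) (Fin 2) R, (∀ i j, a i j ∈ I ^ k) → (∀ i j, b i j ∈ I ^ k) →
        (a * b) i j ∈ I ^ (k + 1) := by
      intro a b ha hb
      rw [Matrix.mul_apply]
      refine Ideal.sum_mem _ fun l _ => ?_
      have h3 : a i l * b l j ∈ I ^ (k + k) := by
        rw [pow_add]
        exact Ideal.mul_mem_mul (ha i l) (hb l j)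
      exact Ideal.pow_le_pow_right (by omega) h3
    exact Ideal.sub_mem _ (h2 _ _ (fun i j => h g hg i j) fun i j => h g' hg' i j)
      (h2 _ _ (fun i j => h g' hg' i j) fun i j => h g hg i j)
  intro g hg i j
  have h4 := h0 hg
  rw [MonoidHom.mem_ker] at h4
  have h5 : ((Matrix.GeneralLinearGroup.map (n := Fin 2) (Ideal.Quotient.mk (I ^ (k + 1)))) g).1 i j
      = (1 : Matrix (Fin 2) (Fin 2) (R ⧸ I ^ (k + 1))) i j :=
    congrArg (fun x : GL (Fin 2) (R ⧸ I ^ (k + 1)) => x.1 i j) h4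
  have h6 : Ideal.Quotient.mk (I ^ (k + 1)) (g.1 i j) =
      Ideal.Quotient.mk (I ^ (k + 1)) ((1 : Matrix (Fin 2) (Fin 2) R) i j) := by
    refine h5.trans ?_
    rw [Matrix.one_apply, Matrix.one_apply]
    split_ifs
    · rw [map_one]
    · rw [map_zero]
  rwa [Ideal.Quotient.eq] at h6

/-- all subgroups of `GL_2(ℤ[x_1..x_n])` -/
theorem noperf (n : ℕ) : NoPerf (GL (Fin 2) (MvPolynomial (Fin n) ℤ)) := by
  intro P hP
  obtain ⟨φ, hφ⟩ : ∃ φ : MvPolynomial (Fin n) ℤ →+* ZMod 2,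
      φ = (Int.castRingHom (ZMod 2)).comp (MvPolynomial.eval (fun _ => (0 : ℤ))) := ⟨_, rfl⟩
  have hI : RingHom.ker φ ≠ ⊤ := RingHom.ker_ne_top φ
  have h1 : P ≤ (Matrix.GeneralLinearGroup.map (n := Fin 2) φ).ker := by
    have := np2 _ (map_perf (Matrix.GeneralLinearGroup.map (n := Fin 2) φ) P hP)
    rwa [Subgroup.map_eq_bot_iff] at this
  have h2 : ∀ k : ℕ, 1 ≤ k → ∀ g ∈ P, ∀ i j,
      g.1 i j - (1 : Matrix (Fin 2) (Fin 2) (MvPolynomial (Fin n) ℤ)) i j ∈ (RingHom.ker φ) ^ k := by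
    intro k hk
    induction k, hk using Nat.le_induction with
    | base =>
      intro g hg i j
      rw [pow_one, RingHom.mem_ker, map_sub, sub_eq_zero]
      have h4 := h1 hg
      rw [MonoidHom.mem_ker] at h4
      have h5 : ((Matrix.GeneralLinearGroup.map (n := Fin 2) φ) g).1 i j
          = (1 : Matrix (Fin 2) (Fin 2) (ZMod 2)) i j :=
        congrArg (fun x : GL (Fin 2) (ZMod 2) => x.1 i j) h4
      refine h5.trans ?_
      rw [Matrix.one_apply, Matrix.one_apply]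
      split_ifs
      · rw [map_one]
      · rw [map_zero]
    | succ k hk ih => exact step _ P hP k hk ih
  rw [eq_bot_iff]
  intro g hg
  rw [Subgroup.mem_bot]
  apply Units.ext
  ext1 i j
  rw [Units.val_one, ← sub_eq_zero]
  have h3 := Ideal.iInf_pow_eq_bot_of_isDomain (RingHom.ker φ) hI
  rw [← Ideal.mem_bot, ← h3, Ideal.mem_iInf]
  intro k
  rcases Nat.eq_zero_or_pos k with rfl | hk
  · rw [pow_zero, Ideal.one_eq_top]
    trivial
  · exact h2 k hk g hg i j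

end U722.FF
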