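import Pool.Agent.U722.FF.Stm
import Pool.Agent.N509.TX.Sub

set_option autoImplicit false
set_option linter.unusedSectionVars false
set_option linter.style.haveILetI false

/-! Project FF: assembly. -/

namespace U722.FF

open TH57.FF Matrix MulAction Pool.Agent.U709.BT

theorem NoTor_le {G H : Type} [Group G] [Group H] (f : H →* G) (hf : Function.Injective f)
    (h : NoTor G) : NoTor H := by
  intro a k hk ha
  apply hf
  rw [map_one]
  exact h _ k hk (by rw [← map_pow, ha, map_one])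

theorem t_TT (h2 : S_CONE) (h3 : S_PERM) (h4 : S_OR) (h5 : S_EX) (h6 : S_FGV) : S_TT := by
  classical
  intro G V _ _ T hfg hT hact hinv hedge hvert
  obtain ⟨o⟩ : Nonempty V := hT.connected.nonempty
  obtain ⟨W, iW, T', ι, Φ, hS, ⟨w0, hw0⟩, hΦ, hfin⟩ := Pool.Agent.N509.TX.fg_subtree hT hact hfg o
  obtain ⟨E, iE, s, t, hO⟩ := h4 G W T' hS.act (by
    intro g u v huv h1 h2
    refine hinv g (ι u) (ι v) (hS.adj _ _ huv) ?_ ?_
    · rw [← hS.eqv, h1]
    · rw [← hS.eqv, h2])
  have hEx := h5 G W E T' s t hS.tree hO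
  -- orbits of edges
  have key : ∀ (e e' : E) (φ : V × V), (∃ h : G, (h • ι (s e), h • ι (t e)) = φ) →
      (∃ h : G, (h • ι (s e'), h • ι (t e')) = φ) → ∃ g : G, g • e = e' := by
    rintro e e' φ ⟨h, hh⟩ ⟨h', hh'⟩
    refine ⟨h'⁻¹ * h, hO.inj _ _ ?_ ?_⟩
    · apply hS.inj
      rw [hO.s_act, hS.eqv, mul_smul, inv_smul_eq_iff]
      exact (congrArg Prod.fst hh).trans (congrArg Prod.fst hh').symm
    · apply hS.inj
      rw [hO.t_act, hS.eqv, mul_smul, inv_smul_eq_iff]
      exact (congrArg Prod.snd hh).trans (congrArg Prod.snd hh').symm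
  obtain ⟨SE, hSE⟩ : ∃ S : Finset E, ∀ y : E, ∃ g : G, ∃ x ∈ S, g • x = y := by
    let P : V × V → Prop := fun φ => ∃ e : E, ∃ h : G, (h • ι (s e), h • ι (t e)) = φ
    let Ψ : Finset (V × V) := Φ ∪ Φ.image Prod.swap
    let S : Finset E := Ψ.attach.biUnion fun φ => if hp : P φ then {hp.choose} else ∅
    refine ⟨S, fun y => ?_⟩
    obtain ⟨h, hh⟩ := hfin _ _ (hO.adj y)
    have h1 : (h • ι (s y), h • ι (t y)) ∈ Ψ := by
      rcases hh with hh | hh
      · exact Finset.mem_union_left _ hh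
      · refine Finset.mem_union_right _ (Finset.mem_image.2 ⟨_, hh, rfl⟩)
    have hp : P (h • ι (s y), h • ι (t y)) := ⟨y, h, rfl⟩
    obtain ⟨g, hg⟩ := key hp.choose y _ hp.choose_spec ⟨h, rfl⟩
    refine ⟨g, hp.choose, ?_, hg⟩
    rw [Finset.mem_biUnion]
    refine ⟨⟨_, h1⟩, Finset.mem_attach _ _, ?_⟩
    rw [dif_pos hp]
    exact Finset.mem_singleton_self _
  have hFE : FinOrb G E := ⟨SE, hSE⟩
  have hFW : FinOrb G W := by
    refine ⟨{w0} ∪ (SE.image s ∪ SE.image t), fun y => ?_⟩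
    by_cases hy : y = w0
    · exact ⟨1, w0, by simp, by rw [one_smul, hy]⟩
    · obtain ⟨p⟩ := hS.tree.connected.preconnected y w0
      cases p with
      | nil => exact absurd rfl hy
      | cons hadj _ =>
        obtain ⟨e, he⟩ := hO.all _ _ hadj
        obtain ⟨g, x, hx, hgx⟩ := hSE e
        rcases he with ⟨he, -⟩ | ⟨-, he⟩
        · refine ⟨g, s x, ?_, ?_⟩
          · exact Finset.mem_union_right _ (Finset.mem_union_left _ (Finset.mem_image_of_mem _ hx))
          · rw [← hO.s_act, hgx, he]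
        · refine ⟨g, t x, ?_, ?_⟩
          · exact Finset.mem_union_right _ (Finset.mem_union_right _ (Finset.mem_image_of_mem _ hx))
          · rw [← hO.t_act, hgx, he]
  have hst : ∀ e : E, stabilizer G e = stabilizer G (ι (s e)) ⊓ stabilizer G (ι (t e)) := by
    intro e
    ext g
    rw [Subgroup.mem_inf, mem_stabilizer_iff, mem_stabilizer_iff, mem_stabilizer_iff]
    constructor
    · intro h
      exact ⟨by rw [← hS.eqv, ← hO.s_act, h], by rw [← hS.eqv, ← hO.t_act, h]⟩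
    · rintro ⟨h, h'⟩
      refine hO.inj _ _ (hS.inj ?_) (hS.inj ?_)
      · rw [hO.s_act, hS.eqv, h]
      · rw [hO.t_act, hS.eqv, h']
  have hEd : ∀ e : E, TF ↥(stabilizer G e) ∧ Group.FG ↥(stabilizer G e) := by
    intro e
    rw [hst]
    exact hedge _ _ (hS.adj _ _ (hO.adj e))
  have hV1 := h6 G E W hfg hFE hEx (fun e => (hEd e).2)
  have hV2 : ∀ w : W, TF ↥(stabilizer G w) := by
    intro w
    have := hV1 w
    rw [hS.stab] at this ⊢
    exact hvert _ this
  obtain ⟨f, g, hf, hg, hfg'⟩ := hEx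
  exact h2 _ _ _ _ f g hf hg hfg' (h3 G E hFE fun e => (hEd e).1) (h3 G W hFW hV2)

theorem t_GZ (h1 : S_TT) (h2 : S_TRIV) (h3 : S_FAR) : S_GZ := by
  intro G _ ρ hρ hnt hfg
  obtain ⟨V, iV, T, hT, hact, hfin⟩ := h3
  let _ : MulAction G V := MulAction.compHom V ρ
  have hsm : ∀ (g : G) (v : V), g • v = ρ g • v := fun g v => rfl
  have htriv : ∀ v : V, Subsingleton ↥(stabilizer G v) := by
    intro v
    have hfin' : Finite ↥(stabilizer G v) := by
      have := hfin v
      refine Finite.of_injective (fun x : ↥(stabilizer G v) =>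
        (⟨ρ x.1, x.2⟩ : ↥(stabilizer (GL (Fin 2) ℤ) v))) ?_
      intro x y hxy
      exact Subtype.ext (hρ (congrArg Subtype.val hxy))
    refine ⟨fun x y => ?_⟩
    have h0 : ∀ x : ↥(stabilizer G v), x = 1 := by
      intro x
      obtain ⟨k, hk, hx⟩ := isOfFinOrder_iff_pow_eq_one.1 (isOfFinOrder_of_finite x)
      exact NoTor_le (Subgroup.subtype _) (Subgroup.subtype_injective _) hnt x k hk hx
    rw [h0 x, h0 y]
  refine h1 G V T hfg hT (fun g u v h => hact (ρ g) u v h) ?_ ?_ ?_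
  · intro g u v huv h4 h5
    have h6 : g ^ 2 ∈ stabilizer G u := by
      rw [mem_stabilizer_iff, pow_two, mul_smul, h4, h5]
    have := htriv u
    have h7 : g ^ 2 = 1 := congrArg Subtype.val (Subsingleton.elim (⟨g ^ 2, h6⟩ : ↥(stabilizer G u)) 1)
    have h8 := hnt g 2 two_pos h7
    rw [h8, one_smul] at h4
    rw [h4] at huv
    exact T.loopless.irrefl _ huv
  · intro u v huv
    have := htriv u
    have : Subsingleton ↥(stabilizer G u ⊓ stabilizer G v) := by
      refine ⟨fun x y => Subtype.ext ?_⟩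
      have h9 : (⟨x.1, x.2.1⟩ : ↥(stabilizer G u)) = ⟨y.1, y.2.1⟩ := Subsingleton.elim _ _
      exact congrArg (fun z : ↥(stabilizer G u) => z.1) h9
    exact ⟨h2 _, inferInstance⟩
  · intro v _
    have := htriv v
    exact h2 _

theorem det_deg {n : ℕ} (h : GL (Fin 2) (MvPolynomial (Fin n) ℤ)) :
    h.1.det ≠ 0 ∧ h.1.det.totalDegree = 0 := by
  have h1 : h.1.det * (h⁻¹).1.det = 1 := by
    rw [← Matrix.det_mul]
    have : h.1 * (h⁻¹).1 = 1 := by
      rw [← Units.val_mul, mul_inv_cancel, Units.val_one]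
    rw [this, Matrix.det_one]
  have h2 : h.1.det ≠ 0 := left_ne_zero_of_mul (h1 ▸ one_ne_zero)
  have h3 : (h⁻¹).1.det ≠ 0 := right_ne_zero_of_mul (h1 ▸ one_ne_zero)
  have h4 := MvPolynomial.totalDegree_mul_of_isDomain h2 h3
  rw [h1, MvPolynomial.totalDegree_one] at h4
  exact ⟨h2, by omega⟩

theorem toF_det {n : ℕ} (h : GL (Fin 2) (MvPolynomial (Fin n) ℤ)) :
    (toF n h).1.det = algebraMap _ (FractionRing (MvPolynomial (Fin n) ℤ)) h.1.det := by
  change (h.1.map _).det = _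
  rw [← RingHom.mapMatrix_apply, ← RingHom.map_det]

theorem toF_v {n : ℕ} (D : DV (FractionRing (MvPolynomial (Fin n) ℤ))) (hD : IsDeg n D)
    (h : GL (Fin 2) (MvPolynomial (Fin n) ℤ)) : D.v (toF n h).1.det = 0 := by
  rw [toF_det, hD _ (det_deg h).1, (det_deg h).2]
  simp

theorem no_inv {F : Type} [Field F] (D : DV F) (h : GL (Fin 2) F) (hh : D.v h.1.det = 0)
    (u v : D.Vt) (huv : D.tr.Adj u v) : h • u ≠ v := by
  rintro rfl
  obtain ⟨g, p, hp, rfl, h2⟩ := huv
  have h3 : (QuotientGroup.mk (h * g) : D.Vt) = QuotientGroup.mk (g * p) := h2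
  rw [QuotientGroup.eq] at h3
  obtain ⟨m, -, h4⟩ := (D.mem_S).1 h3
  obtain ⟨m', -, h5⟩ := hp
  rw [DV.v_det_mul, DV.v_det_inv, DV.v_det_mul, DV.v_det_mul, hh, h5] at h4
  omega

theorem t_LIN (h1 : S_TT) (h2 : S_GZ) (h3 : S_AB) (h4 : S_DEG) (h5 : S_TRC) (h6 : S_CV1)
    (h7 : S_BD) (h8 : S_UNI) (h9 : S_VERT) : S_LIN := by
  intro n G _ ρ hρ hnt hfg
  cases n with
  | zero =>
    have hev : Function.Injective (ev0 0) := by
      intro a b hab
      apply Units.ext
      ext1 i j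
      have h9 : (ev0 0 a).1 = (ev0 0 b).1 := congrArg (fun x : GL (Fin 2) ℤ => x.1) hab
      have h10 : MvPolynomial.eval (fun _ => (0 : ℤ)) (a.1 i j)
          = MvPolynomial.eval (fun _ => (0 : ℤ)) (b.1 i j) := congrFun (congrFun h9 i) j
      rw [MvPolynomial.eq_C_of_isEmpty (a.1 i j), MvPolynomial.eq_C_of_isEmpty (b.1 i j)] at h10 ⊢
      rw [MvPolynomial.eval_C, MvPolynomial.eval_C] at h10
      rw [h10]
    exact h2 G ((ev0 0).comp ρ) (hev.comp hρ) hnt hfg
  | succ n =>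
    obtain ⟨D, hD⟩ := h4 n
    let _ : MulAction G D.Vt := MulAction.compHom D.Vt ((toF (n + 1)).comp ρ)
    have hsm : ∀ (g : G) (v : D.Vt), g • v = toF (n + 1) (ρ g) • v := fun g v => rfl
    -- bounded subgroups
    have hb : ∀ (u : D.Vt) (H : Subgroup G), H ≤ stabilizer G u → ∃ c : ℕ, ∀ (h : H) (i j),
        ((ρ h.1).1 i j).totalDegree ≤ c := by
      intro u H hH
      obtain ⟨c, hc⟩ := h7 (n + 1) D hD u
      exact ⟨c, fun h i j => hc (ρ h.1) (hH h.2) i j⟩
    have hcv : ∀ (u v : D.Vt), D.tr.Adj u v → ∀ h : ↥(stabilizer G u ⊓ stabilizer G v),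
        CV (ρ h.1) := by
      intro u v huv h
      obtain ⟨c, hc⟩ := hb u (stabilizer G u ⊓ stabilizer G v) inf_le_left
      obtain ⟨τ, hτ⟩ := h5 (n + 1) c (ρ h.1) (fun k i j => by
        have := hc (h ^ k) i j
        rwa [Subgroup.coe_pow, map_pow] at this)
      exact h6 (n + 1) D hD u v (ρ h.1) τ hτ huv h.2.1 h.2.2
    refine h1 G D.Vt D.tr hfg D.isTree (fun g u v h => D.tr_act _ u v h) ?_ ?_ ?_
    · intro g u v huv h10 _
      exact no_inv D _ (toF_v D hD (ρ g)) u v huv h10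
    · intro u v huv
      obtain ⟨c, hc⟩ := hb u (stabilizer G u ⊓ stabilizer G v) inf_le_left
      have hinj : Function.Injective (ρ.comp (Subgroup.subtype (stabilizer G u ⊓ stabilizer G v))) :=
        hρ.comp (Subgroup.subtype_injective _)
      have hnt' := NoTor_le (Subgroup.subtype (stabilizer G u ⊓ stabilizer G v))
        (Subgroup.subtype_injective _) hnt
      obtain ⟨h11, h12⟩ := h8 (n + 1) c _ _ hinj hnt' (fun h i j => hc h i j) (fun h => hcv u v huv h)
      exact ⟨h3 _ h11 h12 hnt', h12⟩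
    · intro u hfgu
      obtain ⟨c, hc⟩ := hb u (stabilizer G u) le_rfl
      have hinj : Function.Injective (ρ.comp (Subgroup.subtype (stabilizer G u))) :=
        hρ.comp (Subgroup.subtype_injective _)
      have hnt' := NoTor_le (Subgroup.subtype (stabilizer G u)) (Subgroup.subtype_injective _) hnt
      by_cases hk : ∃ x : ↥(stabilizer G u), x ≠ 1 ∧ ev0 (n + 1) (ρ x.1) = 1
      · have h10 := h9 (n + 1) c _ (ρ.comp (Subgroup.subtype (stabilizer G u))) hinj
          (fun h i j => hc h i j) hk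
        obtain ⟨h11, h12⟩ := h8 (n + 1) c _ _ hinj hnt' (fun h i j => hc h i j) h10
        exact h3 _ h11 h12 hnt'
      · push Not at hk
        refine h2 _ ((ev0 (n + 1)).comp (ρ.comp (Subgroup.subtype (stabilizer G u)))) ?_ hnt' hfgu
        rw [injective_iff_map_eq_one]
        intro x hx
        by_contra hx1
        exact hk x hx1 hx

end U722.FF
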