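import Pool.Agent.U722.FF.Asm
import Pool.Agent.U460.FFP.EXT
import Pool.Agent.U603.FFP.CONE
import Pool.Agent.U165.FFP.PERM
import Pool.Agent.U458.FFP.OR
import Pool.Agent.U928.FFP.EX
import Pool.Agent.U423.FFP.FP1
import Pool.Agent.U97.FFP.FP2
import Pool.Agent.U99.FFP.FGV
import Pool.Agent.U884.FFP.AB
import Pool.Agent.U780.FFP.DEG
import Pool.Agent.U194.FFP.SQ
import Pool.Agent.U128.FFP.EDGE
import Pool.Agent.U15.FFP.TRC
import Pool.Agent.U669.FFP.BD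
import Pool.Agent.U678.FFP.IND
import Pool.Agent.U637.FFP.SMALL
import Pool.Agent.U978.FFP.FAR
import Pool.Agent.U864.FFP.CV1
import Pool.Agent.U2.FFP.UNI
import Pool.Agent.U208.FFP.VERT

set_option autoImplicit false

/-! Project FF: final theorems. -/

namespace U722.FF

theorem EXT : S_EXT := Pool.Agent.U460.FFP.t_EXT
theorem CONE : S_CONE := Pool.Agent.U603.FFP.t_CONE EXT
theorem IND : S_IND := Pool.Agent.U678.FFP.t_IND
theorem PERM : S_PERM := Pool.Agent.U165.FFP.PERM.t_PERM EXT IND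
theorem OR : S_OR := Pool.Agent.U458.FFP.t_OR
theorem EX : S_EX := Pool.Agent.U928.FFP.t_EX
theorem FP1 : S_FP1 := Pool.Agent.U423.FFP.t_FP1
theorem FP2 : S_FP2 := Pool.Agent.U97.FFP.t_FP2
theorem FGV : S_FGV := Pool.Agent.U99.FFP.t_FGV FP1 FP2
theorem TRIV : S_TRIV := Pool.Agent.U637.FFP.t_TRIV
theorem ISO : S_ISO := Pool.Agent.U637.FFP.t_ISO
theorem FF : S_FF := Pool.Agent.U637.FFP.t_FF
theorem TT : S_TT := t_TT CONE PERM OR EX FGV
theorem AB : S_AB := Pool.Agent.U884.FFP.t_AB TT TRIV ISO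
theorem FAR : S_FAR := Pool.Agent.U978.FFP.t_FAR
theorem GZ : S_GZ := t_GZ TT TRIV FAR
theorem DEG : S_DEG := Pool.Agent.U780.FFP.DEG.t_DEG
theorem SQ : S_SQ := Pool.Agent.U194.FFP.t_SQ
theorem EDGE : S_EDGE := Pool.Agent.U128.FFP.t_EDGE
theorem TRC : S_TRC := Pool.Agent.U15.FFP.t_TRC
theorem CV1 : S_CV1 := U864.FFP.t_CV1 EDGE SQ
theorem BD : S_BD := Pool.Agent.U669.FFP.t_BD
theorem UNI : S_UNI := Pool.Agent.U2.FFP.UNI.t_UNI
theorem VERT : S_VERT := Pool.Agent.U208.FFP.t_VERT TRC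
theorem LIN : S_LIN := t_LIN TT GZ AB DEG TRC CV1 BD UNI VERT

end U722.FF
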