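import Pool.Agent.U722.FF.Stm

set_option autoImplicit false
set_option linter.unusedSectionVars false

/-! Project FF, second part: structure of torsion-free subgroups of `GL_2(ℤ[x_1..x_n])`. -/

namespace U722.FF

open TH57.FF Matrix MulAction

/-- virtually torsion-free -/
def S_VIR : Prop := ∀ (n : ℕ) (G : Type) [Group G]
  (ρ : G →* GL (Fin 2) (MvPolynomial (Fin n) ℤ)), Function.Injective ρ →
  ∃ N : Subgroup G, N.Normal ∧ N.index ≠ 0 ∧ N.index ∣ 48 ∧ NoTor N

/-- a free abelian subgroup of rank two -/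
def HasZ2 (G : Type) [Group G] : Prop :=
  ∃ f : Multiplicative (ℤ × ℤ) →* G, Function.Injective f

/-- `G` acts on a tree, without inversions and with finitely many orbits of vertices and edges,
the stabilizers of vertices satisfy `P`, those of edges `Q` -/
def OnTree (G : Type) [Group G] (P Q : ∀ (H : Type) [Group H], Prop) : Prop :=
  ∃ (V E : Type) (_ : MulAction G V) (_ : MulAction G E) (T : SimpleGraph V) (s t : E → V),
    T.IsTree ∧ OE G T s t ∧ FinOrb G V ∧ FinOrb G E ∧ (∀ v : V, P ↥(stabilizer G v)) ∧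
    ∀ e : E, Q ↥(stabilizer G e)

/-- free actions -/
def S_FREE : Prop := ∀ (G V E : Type) [Group G] [MulAction G V] [MulAction G E]
  (T : SimpleGraph V) (s t : E → V), T.IsTree → OE G T s t →
  (∀ v : V, Subsingleton ↥(stabilizer G v)) →
  ∃ (X : Type) (f : G →* FreeGroup X), Function.Injective f

/-- abelian groups without `ℤ^2` -/
def S_CYC : Prop := ∀ (G : Type) [Group G], (∀ a b : G, a * b = b * a) → Group.FG G → NoTor G →
  ¬ HasZ2 G → Subsingleton G ∨ Nonempty (G ≃* Multiplicative ℤ)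

/-- the trivial module has a free resolution of length `k` by finitely generated modules -/
def TFn (G : Type) [Group G] (k : ℕ) : Prop := FR (MonoidAlgebra ℤ G) k (PM G PUnit.{1})

/-- free groups (free actions with finitely many orbits) -/
def S_FREE1 : Prop := ∀ (G : Type) [Group G],
  OnTree G (fun H _ => Subsingleton H) (fun H _ => Subsingleton H) → TFn G 1

/-- infinite cyclic and trivial groups -/
def S_CYC1 : Prop := ∀ (G : Type) [Group G], Subsingleton G ∨ Nonempty (G ≃* Multiplicative ℤ) →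
  TFn G 1

/-- lengths -/
def S_LEN : Prop := ∀ (G : Type) [Group G],
  OnTree G (fun H _ => TFn H 1) (fun H _ => TFn H 1) → TFn G 2

/-- cohomology vanishes above the length -/
def S_H3 : Prop := ∀ (G : Type) [Group G], TFn G 2 →
  Subsingleton (groupCohomology (Rep.ofMulAction ℤ G G) 3)

/-- type FP -/
def FPres (G : Type) [Group G] : Prop :=
  ∃ (n : ℕ) (P : ℕ → ModuleCat.{0} (MonoidAlgebra ℤ G))
    (d : ∀ i : ℕ, (P (i + 1)) →ₗ[MonoidAlgebra ℤ G] (P i)) (ε : (P 0) →+ ℤ),
    (∀ i, Module.Projective (MonoidAlgebra ℤ G) (P i)) ∧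
    (∀ i, Module.Finite (MonoidAlgebra ℤ G) (P i)) ∧
    (∀ i, n < i → Subsingleton (P i)) ∧
    (∀ (g : G) (x : P 0), ε (MonoidAlgebra.of ℤ G g • x) = ε x) ∧
    Function.Surjective ε ∧
    (∀ x : P 0, ε x = 0 ↔ x ∈ LinearMap.range (d 0)) ∧
    (∀ i, LinearMap.ker (d i) = LinearMap.range (d (i + 1)))

/-- groups of type FP are torsion-free -/
def S_NOTOR : Prop := ∀ (G : Type) [Group G], FPres G → NoTor G

/-- groups of type FP are finitely generated -/
def S_FPFG : Prop := ∀ (G : Type) [Group G], FPres G → Group.FG G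

/-- no Baumslag-Solitar relations with different exponents -/
def S_BSL : Prop := ∀ (n : ℕ) (u t : GL (Fin 2) (MvPolynomial (Fin n) ℤ)) (p q : ℤ),
  (∀ k : ℕ, 0 < k → u ^ k ≠ 1) → p ≠ 0 → t * u ^ p * t⁻¹ = u ^ q → q = p ∨ q = -p

/-- the Baumslag-Solitar group `⟨a, t | t a^p t⁻¹ = a^q⟩` -/
def BS (p q : ℤ) : Type := PresentedGroup
  ({FreeGroup.of true * FreeGroup.of false ^ p * (FreeGroup.of true)⁻¹ * (FreeGroup.of false ^ q)⁻¹} :
    Set (FreeGroup Bool))

instance (p q : ℤ) : Group (BS p q) := inferInstanceAs (Group (PresentedGroup _))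

/-- the Baumslag-Solitar groups with exponents of the same absolute value contain `ℤ^2` -/
def S_BSZ : Prop := ∀ p q : ℤ, p ≠ 0 → (q = p ∨ q = -p) → HasZ2 (BS p q)

/-- the base generator has infinite order -/
def S_BSI : Prop := ∀ p q : ℤ, p ≠ 0 → q ≠ 0 → ∀ k : ℕ, 0 < k →
  (PresentedGroup.of false : BS p q) ^ k ≠ 1

/-- indicable -/
def Ind (G : Type) [Group G] : Prop := ∃ f : G →* Multiplicative ℤ, f ≠ 1

end U722.FF
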