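import Pool.Agent.U722.FF.Str
import Pool.Agent.U750.FSP.VIR
import Pool.Agent.U397.FSP.FREE
import Pool.Agent.U744.FSP.CYC
import Pool.Agent.U460.FSP.FREE1
import Pool.Agent.U423.FSP.CYC1
import Pool.Agent.U429.FSP.LEN
import Pool.Agent.U187.FSP.NOTOR
import Pool.Agent.U908.FSP.FPFG
import Pool.Agent.U630.FSP.BSL
import Pool.Agent.U208.FSP.BSZ
import Pool.Agent.U723.FSP.BSI
import Pool.Agent.U364.FSP.CONV

set_option autoImplicit false

namespace U722.FF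

theorem VIR : S_VIR := Pool.Agent.U750.FSP.t_VIR
theorem FREE : S_FREE := Pool.Agent.U397.FSP.t_FREE
theorem CYC : S_CYC := Pool.Agent.U744.FSP.t_CYC
theorem FREE1 : S_FREE1 := Pool.Agent.U460.FSP.t_FREE1
theorem CYC1 : S_CYC1 := Pool.Agent.U423.FSP.t_CYC1
theorem LEN : S_LEN := Pool.Agent.U429.FSP.t_LEN
theorem NOTOR : S_NOTOR := U187.FSP.t_NOTOR
theorem FPFG : S_FPFG := Pool.Agent.U908.FSP.t_FPFG
theorem BSL : S_BSL := Pool.Agent.U630.FSP.t_BSL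
theorem BSZ : S_BSZ := Pool.Agent.U208.FSP.t_BSZ
theorem BSI : S_BSI := Pool.Agent.U723.FSP.BSI.t_BSI
theorem CONV : ∀ (G : Type) [Group G], (∃ N, TH57.FF.FFle G N) → TF G :=
  Pool.Agent.U364.FSP.t_CONV

end U722.FF
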