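import Pool.Agent.U722.FF.Fin2
import Pool.Agent.U864.FSP.H3

set_option autoImplicit false

namespace U722.FF

open MulAction TH57.FF

theorem HasZ2_le {G H : Type} [Group G] [Group H] (f : H →* G) (hf : Function.Injective f)
    (h : HasZ2 H) : HasZ2 G := by
  obtain ⟨j, hj⟩ := h
  exact ⟨f.comp j, hf.comp hj⟩

theorem TFn2 (n : ℕ) (G : Type) [Group G] (ρ : G →* GL (Fin 2) (MvPolynomial (Fin n) ℤ))
    (hρ : Function.Injective ρ) (hnt : NoTor G) (hfg : Group.FG G) (hz : ¬ HasZ2 G) : TFn G 2 := by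
  have h0 : ∀ (H : Type) [Group H] [Subsingleton H], TFn H 1 := by
    intro H _ h
    exact CYC1 H (Or.inl h)
  have h1 : ∀ H : Subgroup G, Group.FG H → (∀ a b : H, a * b = b * a) → TFn H 1 := by
    intro H hH hc
    exact CYC1 H (CYC H hc hH (NoTor_le H.subtype H.subtype_injective hnt)
      (fun h => hz (HasZ2_le H.subtype H.subtype_injective h)))
  refine LEN G (STR n G ρ hρ hnt hfg (fun H _ => TFn H 1) (fun H _ => TFn H 1) h1 h1 ?_ h0 h0)
  rintro H hH ⟨σ, hσ⟩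
  exact FREE1 H (GZ_tree FAR H σ hσ (NoTor_le H.subtype H.subtype_injective hnt) hH
    (fun H _ => Subsingleton H) (fun H _ => Subsingleton H) (fun H _ h => h) (fun H _ h => h))

/-- from `TFn` to `FFle` -/
theorem FFle_of_TFn (G : Type) [Group G] (k : ℕ) (h : TFn G k) : FFle G k := by
  obtain ⟨P, i1, i2, d, ε, h1, h2, h3, h4, h5, h6⟩ := seq_of_FR k _ h
  let e : PM G PUnit.{1} →+ ℤ := PMadd G (fun _ => (1 : ℤ))
  have hz : ∀ z : ℤ, e (z • pt G PUnit.unit) = z := by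
    intro z
    rw [map_zsmul]
    change z • PMadd G _ (pt G PUnit.unit) = z
    rw [PMadd_pt]
    simp
  have hinj : ∀ m : PM G PUnit.{1}, m = (e m) • pt G PUnit.unit := by
    intro m
    induction m using PM_induction with
    | h0 => simp
    | h1 x =>
      change _ = (PMadd G _ (pt G x)) • _
      rw [PMadd_pt, one_smul]
    | h2 a b ha hb => rw [map_add, add_smul, ← ha, ← hb]
    | h3 a ha => rw [map_neg, neg_smul, ← ha]
  refine ⟨P, i1, i2, d, e.comp ε.toAddMonoidHom, h1, h2, h3, ?_, ?_, ?_, h6⟩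
  · intro g x
    change e (ε (MonoidAlgebra.of ℤ G g • x)) = e (ε x)
    rw [map_smul, hinj (ε x)]
    have h8 : MonoidAlgebra.of ℤ G g • (e (ε x) • pt G PUnit.unit)
        = e (ε x) • pt G (PUnit.unit : PUnit.{1}) := by
      rw [smul_comm, of_smul_pt]
    rw [h8]
  · intro z
    obtain ⟨x, hx⟩ := h4 (z • pt G PUnit.unit)
    exact ⟨x, by change e (ε x) = z; rw [hx, hz]⟩
  · intro x
    rw [← h5]
    change e (ε x) = 0 ↔ ε x = 0
    constructor
    · intro h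
      rw [hinj (ε x), h, zero_smul]
    · intro h
      rw [h, map_zero]

/-- from `FFle` to `TFn` -/
theorem TFn_of_FFle (G : Type) [Group G] (n : ℕ) (h : FFle G n) : TFn G n := by
  obtain ⟨P, i1, i2, d, ε, h1, h2, h3, h4, h5, h6, h7⟩ := h
  let ev : PM G PUnit.{1} ≃+ ℤ := (Finsupp.uniqueAddEquiv PUnit.unit.{1} : (PUnit.{1} →₀ ℤ) ≃+ ℤ)
  let ε' : P 0 →ₗ[MonoidAlgebra ℤ G] PM G PUnit.{1} :=
    mkLin (ev.symm.toAddMonoidHom.comp ε) (by
      intro g x
      rw [Pool.Agent.U364.FSP.of_smul_unit]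
      change ev.symm (ε (MonoidAlgebra.of ℤ G g • x)) = ev.symm (ε x)
      rw [h4])
  have hε : ∀ x, ε' x = ev.symm (ε x) := fun _ => rfl
  refine Pool.Agent.U364.FSP.FR_of_seq n (PM G PUnit.{1}) P d ε' h1 h2 h3 ?_ ?_ h7
  · intro m
    obtain ⟨x, hx⟩ := h5 (ev m)
    refine ⟨x, ?_⟩
    rw [hε, hx, ev.symm_apply_apply]
  · intro x
    rw [hε, ← h6 x]
    exact ev.symm.map_eq_zero_iff

/-- trees with vertex groups of length two and edge groups of length one -/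
theorem LEN2 (G : Type) [Group G] (h : OnTree G (fun H _ => TFn H 2) (fun H _ => TFn H 1)) :
    TFn G 2 := by
  obtain ⟨V, E, iV, iE, T, s, t, hT, hO, hV, hE, hP, hQ⟩ := h
  obtain ⟨f, g, hf, hg, hfg⟩ := Pool.Agent.U928.FFP.t_EX G V E T s t hT hO
  obtain ⟨SV, hSV⟩ := hV
  obtain ⟨SE, hSE⟩ := hE
  have h1 : FR (MonoidAlgebra ℤ G) 2 (PM G V) :=
    Pool.Agent.U429.FSP.perm 1 G SV.card V ⟨SV, le_rfl, hSV⟩ hP
  have h2 : FR (MonoidAlgebra ℤ G) 1 (PM G E) :=
    Pool.Agent.U429.FSP.perm 0 G SE.card E ⟨SE, le_rfl, hSE⟩ hQ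
  exact Pool.Agent.U429.FSP.cone (MonoidAlgebra ℤ G) 1 _ _ _ f g hf hg hfg h2 h1

/-- trees with abelian edge groups, without `ℤ^2` -/
theorem tree_TFn2 (G V : Type) [Group G] [MulAction G V] (T : SimpleGraph V) (hfg : Group.FG G)
    (hnt : NoTor G) (hz : ¬ HasZ2 G) (hT : T.IsTree)
    (hact : ∀ (g : G) (u v : V), T.Adj u v → T.Adj (g • u) (g • v))
    (hinv : ∀ (g : G) (u v : V), T.Adj u v → g • u = v → g • v ≠ u)
    (he : ∀ u v : V, T.Adj u v → Group.FG ↥(stabilizer G u ⊓ stabilizer G v) ∧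
      ∀ a b : ↥(stabilizer G u ⊓ stabilizer G v), a * b = b * a)
    (hv : ∀ v : V, Group.FG ↥(stabilizer G v) → TFn ↥(stabilizer G v) 2) : TFn G 2 := by
  refine LEN2 G (CO G V T (fun H _ => TFn H 2) (fun H _ => TFn H 1) hfg hT hact hinv ?_ hv)
  intro u v huv
  obtain ⟨h1, h2⟩ := he u v huv
  exact ⟨CYC1 _ (CYC _ h2 h1 (NoTor_le (Subgroup.subtype _) (Subgroup.subtype_injective _) hnt)
    (fun h => hz (HasZ2_le (Subgroup.subtype _) (Subgroup.subtype_injective _) h))), h1⟩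

end U722.FF
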