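import Pool.Agent.U722.FF.Stm4
import Pool.Agent.U722.FF.Pd3
import Pool.Agent.N496.CV.L2Pf
import Pool.Agent.N496.CV.P_RU

set_option autoImplicit false
set_option linter.unusedSectionVars false

/-! Project LB, assembly: the `L²`-Betti numbers of the subgroups of `GL_2(ℤ[x_1..x_n])`. -/

noncomputable section

namespace U722.FF

open TH57.FF Matrix MulAction CategoryTheory Pool.Agent.Helper655.VN

attribute [local instance] V7N.bcF_additive VN831.bcFunctor_additive

theorem MR_mono {R U : Type} [Ring R] [Ring U] {ψ : R →+* U} {k k' : ℕ} (hk : k ≤ k') {M : Type}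
    [AddCommGroup M] [Module R M] (h : MR ψ k M) : MR ψ k' M := by
  obtain ⟨N, ι, iF, d, ε, h1, h2, h3, h4, h5, h6⟩ := h
  exact ⟨N, ι, iF, d, ε, h1, h2, h3, h4, fun h => h5 (by omega), fun n hn => h6 n (by omega)⟩

/-- all the elements `1 - c g`, `g ≠ 1`, are invertible -/
def UC {G U : Type} [Group G] [Ring U] (c : G →* U) : Prop := ∀ g : G, g ≠ 1 → IsUnit (1 - c g)

theorem UC.sub {G U : Type} [Group G] [Ring U] {c : G →* U} (h : UC c) (H : Subgroup G) :
    UC (c.comp H.subtype) := by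
  intro g hg
  exact h g.1 fun h1 => hg (Subtype.ext h1)

/-- the homology with coefficients in such rings vanishes in all degrees `≥ k` -/
def Van (k : ℕ) (H : Type) [Group H] : Prop := ∀ (U : Type) [Ring U] (c : H →* U), UC c →
  MR (V7N.evM c) k (PM H PUnit.{1})

theorem van_triv (hR : S_MFR) (H : Type) [Group H] [Subsingleton H] : Van 1 H := by
  intro U _ c _
  refine hR _ _ _ 0 _ ?_
  exact Pool.Agent.U460.FSP.free_fin (fun x => inferInstance) ⟨{PUnit.unit}, fun y => ⟨1, PUnit.unit, by simp, rfl⟩⟩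

theorem van_ab (hR : S_MFR) (hZ : S_MZ) (H : Type) [Group H] (hab : ∀ a b : H, a * b = b * a)
    (hfg : Group.FG H) (hnt : NoTor H) : Van 1 H := by
  intro U _ c hc
  by_cases hs : Subsingleton H
  · exact van_triv hR H U c hc
  · rw [not_subsingleton_iff_nontrivial] at hs
    obtain ⟨z, hz⟩ := exists_ne (1 : H)
    exact MR_mono (Nat.zero_le 1) (hZ H U c z (fun g => hab z g) (hc z hz) (AB H hab hfg hnt))

theorem van_free (hR : S_MFR) (H : Type) [Group H] (h : TFn H 1) : Van 2 H :=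
  fun U _ _ _ => hR _ _ _ 1 _ h

theorem van_tree (hC : S_MCONE) (hP : S_MPERM) (k : ℕ) (G : Type) [Group G]
    (h : OnTree G (Van (k + 1)) (Van k)) : Van (k + 1) G := by
  intro U _ c hc
  obtain ⟨V, E, iV, iE, T, s, t, hT, hO, hFV, hFE, hV, hE⟩ := h
  obtain ⟨f, g, hf, hg, hfg⟩ := EX G V E T s t hT hO
  exact hC _ _ _ k _ _ _ f g hf hg hfg
    (hP G E U c k hFE fun e => hE e U _ (hc.sub _))
    (hP G V U c (k + 1) hFV fun v => hV v U _ (hc.sub _))

theorem van_lin (hC : S_MCONE) (hP : S_MPERM) (hR : S_MFR) (hZ : S_MZ) (n : ℕ) (G : Type)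
    [Group G] (ρ : G →* GL (Fin 2) (MvPolynomial (Fin n) ℤ)) (hρ : Function.Injective ρ)
    (hnt : NoTor G) (hfg : Group.FG G) : Van 2 G := by
  have hm : ∀ (H : Type) [Group H], Van 1 H → Van 2 H :=
    fun H _ h U _ c hc => MR_mono (by omega) (h U c hc)
  have hnt' : ∀ H : Subgroup G, NoTor H := fun H => NoTor_le H.subtype H.subtype_injective hnt
  refine van_tree hC hP 1 G (STR n G ρ hρ hnt hfg (Van 2) (Van 1)
    (fun H hH hab => hm _ (van_ab hR hZ H hab hH (hnt' H)))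
    (fun H hH hab => van_ab hR hZ H hab hH (hnt' H)) ?_
    (fun H _ _ => hm _ (van_triv hR H)) (fun H _ _ => van_triv hR H))
  rintro H hH ⟨σ, hσ⟩
  exact van_free hR H (FREE1 H (GZ_tree FAR H σ hσ (hnt' H) hH
    (fun H _ => Subsingleton H) (fun H _ => Subsingleton H) (fun H _ h => h) (fun H _ h => h)))

/-- torsion-free groups, coefficients in `U` -/
theorem hz_tf (hC : S_MCONE) (hP : S_MPERM) (hR : S_MFR) (hZ : S_MZ) (hD : S_DIRU) (n : ℕ)
    (G : Type) [Group G] (ρ : G →* GL (Fin 2) (MvPolynomial (Fin n) ℤ))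
    (hρ : Function.Injective ρ) (hnt : NoTor G) (U : Type) [Ring U] (c : G →* U) (hc : UC c)
    (k : ℕ) (hk : 2 ≤ k) : HZ c k := by
  refine hD G U c 2 (fun H hH => ?_) k hk
  exact van_lin hC hP hR hZ n H (ρ.comp H.subtype) (hρ.comp H.subtype_injective)
    (NoTor_le H.subtype H.subtype_injective hnt) hH U _ (hc.sub H)

theorem nat_unit (G : Type) [Group G] (m : ℕ) (hm : m ≠ 0) : IsUnit ((m : ℕ) : NG G) := by
  have h1 : IsUnit ((algebraMap ℂ (NG G)) (m : ℂ)) :=
    (isUnit_iff_ne_zero.2 (Nat.cast_ne_zero.2 hm)).map (algebraMap ℂ (NG G))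
  rwa [map_natCast] at h1

/-- groups which have a subgroup of finite index isomorphic to a subgroup of `GL_2(ℤ[x_1..x_n])` -/
theorem l2_lin (hC : S_MCONE) (hP : S_MPERM) (hR : S_MFR) (hZ : S_MZ) (hD : S_DIRU) (hF : S_FINI)
    (hL : S_LOCZ) (n : ℕ) (G : Type) [Group G] (N : Subgroup G) (hN : N.index ≠ 0)
    (ρ : N →* GL (Fin 2) (MvPolynomial (Fin n) ℤ)) (hρ : Function.Injective ρ) (k : ℕ)
    (hk : 2 ≤ k) : VN831.l2Betti G k = 0 := by
  obtain ⟨U, hU, ι, hι⟩ := Pool.Agent.RK.LocEx.loc_exists (vn_NG (G := G))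
  obtain ⟨M, -, hM, -, hM2⟩ := VIR n N ρ hρ
  obtain ⟨M', hM'⟩ : ∃ M' : Subgroup G, M' = M.map N.subtype := ⟨_, rfl⟩
  have e1 : ∀ x : M', ∃ y : M, (y.1.1 : G) = x.1 := by
    rintro ⟨x, hx⟩
    rw [hM'] at hx
    obtain ⟨y, hy, rfl⟩ := hx
    exact ⟨⟨y, hy⟩, rfl⟩
  have hnt : NoTor M' := by
    intro g m hm hg
    obtain ⟨y, hy⟩ := e1 g
    have h1 : y ^ m = 1 := by
      apply Subtype.ext
      apply Subtype.ext
      have := congrArg Subtype.val hg
      simpa [hy] using this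
    have h2 := hM2 y m hm h1
    apply Subtype.ext
    rw [← hy, h2]
    rfl
  have hidx : M'.index ≠ 0 := by
    rw [hM', Subgroup.index_map_subtype]
    exact mul_ne_zero hM hN
  have hle : M' ≤ N := by
    rw [hM']
    rintro _ ⟨y, -, rfl⟩
    exact y.2
  refine hL G U ι hι k (hF G U _ M' hidx ?_ k ?_)
  · have := (nat_unit G _ hidx).map ι
    rwa [map_natCast] at this
  · refine hz_tf hC hP hR hZ hD n M' (ρ.comp (Subgroup.inclusion hle))
      (hρ.comp (Subgroup.inclusion_injective hle)) hnt U _ ?_ k hk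
    intro g hg
    have h1 : ι (1 - canL (g : G)) = 1 - ι (canL (g : G)) := by rw [map_sub, map_one]
    show IsUnit (1 - ι (canL (g : G)))
    rw [← h1]
    refine hι.unit _ (Pool.Agent.N496.CV.P_RU_nz _ ?_)
    rw [injective_pow_iff_not_isOfFinOrder, isOfFinOrder_iff_pow_eq_one]
    rintro ⟨m, hm, hm1⟩
    refine hg (hnt g m hm ?_)
    apply Subtype.ext
    exact hm1

end U722.FF
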