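import Pool.Agent.N496.CV.Euler
import Pool.Agent.N496.CV.L2Pf

set_option autoImplicit false

/-! Project LB: Poincare duality and Euler characteristics. -/

noncomputable section

namespace U722.FF

open Pool.Agent.N496.CV Pool.Agent.Helper655.VN Pool.Agent.RK VN831

variable {K : Type} [Group K]

theorem pd_all {q : ℕ} (hq : 3 ≤ q) (P : PD K q) (h : ∀ k, 2 ≤ k → l2Betti K k = 0) (k : ℕ) :
    l2Betti K k = 0 := by
  by_cases hk : 2 ≤ k
  · exact h k hk
  · exact pd_zero P k (q - k) (by omega) (h _ (by omega))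

theorem euler_bet (C : V7N.FreeRes K) (p : ℕ) (h0 : ∀ i, p < i → C.r i = 0) :
    (∑ i ∈ Finset.range (p + 1), (-1 : ℝ) ^ i * (C.r i : ℝ)) =
      ∑ i ∈ Finset.range (p + 1), (-1 : ℝ) ^ i * bet C i := by
  have h1 := euler_sum C p
  have h2 : rk (tau K) (nm C p) = 0 := rk_rows_zero (h0 _ (by omega)) _
  rw [h2, mul_zero, zero_add] at h1
  exact h1

theorem euler_zero (C : V7N.FreeRes K) (p : ℕ) (h0 : ∀ i, p < i → C.r i = 0)
    (h : ∀ k, l2Betti K k = 0) :
    ∑ i ∈ Finset.range (p + 1), (-1 : ℤ) ^ i * (C.r i : ℤ) = 0 := by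
  have h1 := euler_bet C p h0
  have h2 : ∑ i ∈ Finset.range (p + 1), (-1 : ℝ) ^ i * bet C i = 0 :=
    Finset.sum_eq_zero fun i _ => by rw [bet_zero C i (h i), mul_zero]
  rw [h2] at h1
  exact_mod_cast h1

/-- if only the first `L²`-Betti number is possibly nonzero -/
theorem euler_one (C : V7N.FreeRes K) (p : ℕ) (h0 : ∀ i, p < i → C.r i = 0)
    (h : ∀ k, k ≠ 1 → l2Betti K k = 0) :
    (∑ i ∈ Finset.range (p + 1), (-1 : ℤ) ^ i * (C.r i : ℤ) ≤ 0) ∧
    (∑ i ∈ Finset.range (p + 1), (-1 : ℤ) ^ i * (C.r i : ℤ) = 0 ↔ l2Betti K 1 = 0) := by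
  have h1 := euler_bet C p h0
  have h2 : ∑ i ∈ Finset.range (p + 1), (-1 : ℝ) ^ i * bet C i = - bet C 1 := by
    by_cases hp : 1 ≤ p
    · rw [Finset.sum_eq_single 1]
      · ring
      · intro i _ hi
        rw [bet_zero C i (h i hi), mul_zero]
      · intro h3
        exact absurd (Finset.mem_range.2 (by omega)) h3
    · have hb : bet C 1 = 0 := by
        show (C.r 1 : ℝ) - rk (tau K) (nm C 1) - rk (tau K) (nm C 0) = 0
        rw [rk_rows_zero (h0 2 (by omega)), rk_rows_zero (h0 1 (by omega)), h0 1 (by omega)]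
        simp
      rw [hb, neg_zero]
      refine Finset.sum_eq_zero fun i hi => ?_
      rw [Finset.mem_range] at hi
      rw [bet_zero C i (h i (by omega)), mul_zero]
  rw [h2] at h1
  have h3 : ((∑ i ∈ Finset.range (p + 1), (-1 : ℤ) ^ i * (C.r i : ℤ) : ℤ) : ℝ) = - bet C 1 := by
    rw [← h1]
    push_cast
    rfl
  constructor
  · have h4 := bet_nonneg C 1
    have h5 : ((∑ i ∈ Finset.range (p + 1), (-1 : ℤ) ^ i * (C.r i : ℤ) : ℤ) : ℝ) ≤ 0 := by
      rw [h3]
      linarith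
    exact_mod_cast h5
  · constructor
    · intro h4
      rw [h4, Int.cast_zero] at h3
      have h5 : bet C 1 = 0 := by linarith
      refine (succ_iff C 0).2 ?_
      have h6 : (C.r 1 : ℝ) - rk (tau K) (nm C 1) - rk (tau K) (nm C 0) = 0 := h5
      show rk (tau K) (nm C 1) + rk (tau K) (nm C 0) = C.r 1
      linarith
    · intro h4
      rw [bet_zero C 1 h4, neg_zero] at h3
      exact_mod_cast h3

end U722.FF
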