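import Pool.Agent.U129.LBP.ML2
import Pool.Agent.U722.FF.Lb2
import Pool.Agent.N496.CV.P_RU
import Pool.Agent.Helper970.V7.P_v7_zero

set_option autoImplicit false

/-! Project LB: degree zero. -/

open scoped ENNReal Matrix

noncomputable section

namespace U722.FF

open Pool.Agent.Helper655.VN Pool.Agent.RK VN831 Pool.Agent.U129.LBP

attribute [local instance] VN831.bcFunctor_additive VN831.viaAdd VN831.viaMod V7N.bcF_additive
  V7N.rmAdd V7N.rmMod

variable {G : Type} [Group G]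

theorem ml20 {U : Type} [Ring U] (ι : NG G →+* U) (hι : Loc ι) (C : V7N.FreeRes G)
    (hex : ∀ v : Fin (C.r 0) → U, ∃ w : Fin (C.r 1) → U,
      w ᵥ* (C.d 0).map (V7N.evM ((ι : NG G →* U).comp canL)) = v) : l2Betti G 0 = 0 := by
  obtain ⟨f⟩ := V7N.v7_zero C (MonoidHom.id G) Function.injective_id (canL : G →* NG G) canL
    (RingHom.id (NG G)) (fun k => rfl) indep_id'
  have f' : homN G 0 ≃ₗ[NG G] HR (RingHom.id (NG G)) (canL : G →* NG G)
    ((C.d 0).map (V7N.evM canL))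
    ((0 : Matrix (Fin (C.r 0)) (Fin 0) (MonoidAlgebra ℤ G)).map (V7N.evM canL)) := f
  have h1 : l2Betti G 0 = luckDim G (HR (RingHom.id (NG G)) (canL : G →* NG G)
    ((C.d 0).map (V7N.evM canL))
    ((0 : Matrix (Fin (C.r 0)) (Fin 0) (MonoidAlgebra ℤ G)).map (V7N.evM canL))) := luck_congr f'
  rw [h1]
  rw [map_comp'] at hex
  exact luck_zero fun x => hr_torsion canL hι _ _ (fun v _ => hex v) x

/-- the `L²`-Betti number of degree zero of a group with an element of infinite order is zero -/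
theorem inf0 (C : V7N.FreeRes G) (g : G) (hg : ∀ k : ℕ, 0 < k → g ^ k ≠ 1) : l2Betti G 0 = 0 := by
  classical
  obtain ⟨U, hU, ι, hι⟩ := Pool.Agent.RK.LocEx.loc_exists (vn_NG (G := G))
  refine ml20 ι hι C fun v => ?_
  have hu : IsUnit (1 - ι (canL g)) := by
    have h1 : ι (1 - canL g) = 1 - ι (canL g) := by rw [map_sub, map_one]
    rw [← h1]
    refine hι.unit _ (Pool.Agent.N496.CV.P_RU_nz _ ?_)
    rw [injective_pow_iff_not_isOfFinOrder, isOfFinOrder_iff_pow_eq_one]
    rintro ⟨m, hm, hm1⟩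
    exact hg m hm hm1
  obtain ⟨u, hu⟩ := hu
  have hz : ∀ i : Fin (C.r 0), ∃ w : Fin (C.r 1) → MonoidAlgebra ℤ G,
      Pi.single i (1 - MonoidAlgebra.single g (1 : ℤ)) = w ᵥ* C.d 0 := by
    intro i
    refine (C.exact_zero _).1 ?_
    have h1 : (Pi.single i (1 - MonoidAlgebra.single g (1 : ℤ)) : Fin (C.r 0) → MonoidAlgebra ℤ G)
        = Pi.single i 1 - fun j => MonoidAlgebra.single g (1 : ℤ) *
          (Pi.single i 1 : Fin (C.r 0) → MonoidAlgebra ℤ G) j := by
      funext j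
      by_cases hj : j = i
      · subst hj
        simp
      · simp [hj]
    rw [h1, map_sub, C.ε_smul, sub_self]
  choose w hw using hz
  obtain ⟨ψ, hψ⟩ : ∃ ψ : MonoidAlgebra ℤ G →+* U, ψ = V7N.evM ((ι : NG G →* U).comp canL) :=
    ⟨_, rfl⟩
  have hψg : ψ (1 - MonoidAlgebra.single g (1 : ℤ)) = u := by
    rw [hu, map_sub, map_one, hψ]
    simp [V7N.evM]
  rw [← hψ]
  refine ⟨fun l => ∑ i, v i * ((↑u⁻¹ : U) * ψ (w i l)), ?_⟩
  funext j
  have h2 : ∀ i, ∑ l, ψ (w i l) * ψ (C.d 0 l j) = if j = i then (u : U) else 0 := by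
    intro i
    have h3 := congrFun (hw i) j
    have h4 := congrArg ψ h3
    rw [Pi.single_apply] at h4
    change _ = ψ (∑ l, w i l * C.d 0 l j) at h4
    rw [map_sum] at h4
    rw [show (∑ l, ψ (w i l) * ψ (C.d 0 l j)) = ∑ l, ψ (w i l * C.d 0 l j) from
      Finset.sum_congr rfl fun l _ => (map_mul ψ _ _).symm, ← h4]
    split_ifs with hji
    · exact hψg
    · exact map_zero ψ
  show ∑ l, (∑ i, v i * ((↑u⁻¹ : U) * ψ (w i l))) * ψ (C.d 0 l j) = v j
  calc ∑ l, (∑ i, v i * ((↑u⁻¹ : U) * ψ (w i l))) * ψ (C.d 0 l j)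
      = ∑ l, ∑ i, v i * ((↑u⁻¹ : U) * (ψ (w i l) * ψ (C.d 0 l j))) := by
        refine Finset.sum_congr rfl fun l _ => ?_
        rw [Finset.sum_mul]
        refine Finset.sum_congr rfl fun i _ => ?_
        rw [mul_assoc, mul_assoc]
    _ = ∑ i, v i * ((↑u⁻¹ : U) * ∑ l, ψ (w i l) * ψ (C.d 0 l j)) := by
        rw [Finset.sum_comm]
        refine Finset.sum_congr rfl fun i _ => ?_
        rw [Finset.mul_sum, Finset.mul_sum]
    _ = v j := by
        rw [Finset.sum_eq_single j]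
        · rw [h2 j, if_pos rfl, Units.inv_mul, mul_one]
        · intro i _ hi
          rw [h2 i, if_neg (Ne.symm hi), mul_zero, mul_zero]
        · intro h
          exact absurd (Finset.mem_univ _) h

end U722.FF
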