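import Pool.Agent.U722.FF.Lb
import Pool.Agent.U722.FF.Lb4
import Pool.Agent.U851.LBP.MCONE
import Pool.Agent.U697.LBP.MPROD
import Pool.Agent.U858.LBP.MIND
import Pool.Agent.U95.LBP.MPERM
import Pool.Agent.U15.LBP.MZ
import Pool.Agent.U645.LBP.MFR
import Pool.Agent.U588.LBP.Asm
import Pool.Agent.U588.LBP.LDx
import Pool.Agent.U981.LBP.MRZ
import Pool.Agent.U367.LBP.BCX
import Pool.Agent.U364.LBP.DFR
import Pool.Agent.U925.LBP.DOM
import Pool.Agent.U588.LBP.GHx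
import Pool.Agent.U571.LBP.FINI
import Pool.Agent.U815.LBP.LOCZ

set_option autoImplicit false

/-! Project LB: final theorems. -/

noncomputable section

namespace U722.FF

open Pool.Agent.Helper655.VN VN831 Pool.Agent.N496.CV

theorem MCONE : S_MCONE := Pool.Agent.U851.LBP.t_MCONE
theorem MPERM : S_MPERM :=
  Pool.Agent.U95.LBP.t_MPERM Pool.Agent.U697.LBP.t_MPROD Pool.Agent.U858.LBP.t_MIND
theorem MZ : S_MZ := Pool.Agent.U15.LBP.t_MZ
theorem MFR : S_MFR := Pool.Agent.U645.LBP.t_MFR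
theorem DIRU : S_DIRU :=
  Pool.Agent.U588.LBP.t_DIRU Pool.Agent.U588.LBP.t_LDx
    (Pool.Agent.U981.LBP.t_MRZ Pool.Agent.U588.LBP.t_LDx) Pool.Agent.U367.LBP.t_BCX
    Pool.Agent.U364.LBP.t_DFR (Pool.Agent.U925.LBP.t_DOM Pool.Agent.U364.LBP.t_DFR)
    Pool.Agent.U588.LBP.t_GHx Pool.Agent.U858.LBP.t_MIND
theorem FINI : S_FINI := Pool.Agent.U571.LBP.t_FINI
theorem LOCZ : S_LOCZ := Pool.Agent.U815.LBP.t_LOCZ

/-- torsion-free groups, coefficients -/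
theorem HZLIN (n : ℕ) (G : Type) [Group G] (ρ : G →* GL (Fin 2) (MvPolynomial (Fin n) ℤ))
    (hρ : Function.Injective ρ) (hnt : NoTor G) (U : Type) [Ring U] (c : G →* U) (hc : UC c)
    (k : ℕ) (hk : 2 ≤ k) : HZ c k := hz_tf MCONE MPERM MFR MZ DIRU n G ρ hρ hnt U c hc k hk

/-- groups which have a subgroup of finite index isomorphic to a subgroup of `GL_2(ℤ[x_1..x_n])` -/
theorem L2LIN (n : ℕ) (G : Type) [Group G] (N : Subgroup G) (hN : N.index ≠ 0)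
    (ρ : N →* GL (Fin 2) (MvPolynomial (Fin n) ℤ)) (hρ : Function.Injective ρ) (k : ℕ)
    (hk : 2 ≤ k) : VN831.l2Betti G k = 0 := l2_lin MCONE MPERM MFR MZ DIRU FINI LOCZ n G N hN ρ hρ k hk

/-- subgroups of `GL_2(ℤ[x_1..x_n])` -/
theorem L2SUB (n : ℕ) (G : Type) [Group G] (ρ : G →* GL (Fin 2) (MvPolynomial (Fin n) ℤ))
    (hρ : Function.Injective ρ) (k : ℕ) (hk : 2 ≤ k) : VN831.l2Betti G k = 0 :=
  L2LIN n G ⊤ (by simp) (ρ.comp (⊤ : Subgroup G).subtype)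
    (hρ.comp (⊤ : Subgroup G).subtype_injective) k hk

/-- torsion-free groups which are locally isomorphic to subgroups of `GL_2(ℤ[x_1..x_n])` -/
theorem HZLOC (G : Type) [Group G] (hnt : NoTor G)
    (h : ∀ H : Subgroup G, Group.FG H →
      ∃ (n : ℕ) (ρ : H →* GL (Fin 2) (MvPolynomial (Fin n) ℤ)), Function.Injective ρ)
    (U : Type) [Ring U] (c : G →* U) (hc : UC c) (k : ℕ) (hk : 2 ≤ k) : HZ c k := by
  refine DIRU G U c 2 (fun H hH => ?_) k hk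
  obtain ⟨n, ρ, hρ⟩ := h H hH
  exact van_lin MCONE MPERM MFR MZ n H ρ hρ
    (NoTor_le H.subtype H.subtype_injective hnt) hH U _ (hc.sub H)

theorem L2LOC (G : Type) [Group G] (hnt : NoTor G)
    (h : ∀ H : Subgroup G, Group.FG H →
      ∃ (n : ℕ) (ρ : H →* GL (Fin 2) (MvPolynomial (Fin n) ℤ)), Function.Injective ρ)
    (k : ℕ) (hk : 2 ≤ k) : VN831.l2Betti G k = 0 := by
  obtain ⟨U, hU, ι, hι⟩ := Pool.Agent.RK.LocEx.loc_exists (vn_NG (G := G))
  refine LOCZ G U ι hι k (HZLOC G hnt h U _ ?_ k hk)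
  intro g hg
  have h1 : ι (1 - canL g) = 1 - ι (canL g) := by rw [map_sub, map_one]
  show IsUnit (1 - ι (canL g))
  rw [← h1]
  refine hι.unit _ (Pool.Agent.N496.CV.P_RU_nz _ ?_)
  rw [injective_pow_iff_not_isOfFinOrder, isOfFinOrder_iff_pow_eq_one]
  rintro ⟨m, hm, hm1⟩
  exact hg (hnt g m hm hm1)

end U722.FF
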