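import Pool.Agent.U722.FF.Lb5

set_option autoImplicit false

/-! Project LB: the short form of the statements. -/

namespace U722.FF

open Pool.Agent.N496.CV

theorem has0 {K : Type} [Group K] {k : ℕ} (h : VN831.l2Betti K k = 0) : HasL2Betti K k 0 := by
  have h1 := hasL2Betti K k
  rwa [h] at h1

end U722.FF
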