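import Pool.Agent.TH57.FF.BdDefs
import Pool.Agent.TH57.FF.Seq
import Pool.Agent.U709.BT

set_option autoImplicit false
set_option linter.unusedSectionVars false

/-! Project FF: statements of the packages. -/

namespace U722.FF

open TH57.FF Matrix MulAction

/-- `M` has a finite resolution by finitely generated free modules -/
def FRf (R : Type) [Ring R] (M : Type) [AddCommGroup M] [Module R M] : Prop := ∃ n, FR R n M

section pm

variable {G : Type} [Group G]

/-- an additive map which commutes with the elements of the group is linear -/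
def mkLin {M N : Type} [AddCommGroup M] [Module (MonoidAlgebra ℤ G) M] [AddCommGroup N]
    [Module (MonoidAlgebra ℤ G) N] (f : M →+ N)
    (h : ∀ (g : G) (m : M), f (MonoidAlgebra.of ℤ G g • m) = MonoidAlgebra.of ℤ G g • f m) :
    M →ₗ[MonoidAlgebra ℤ G] N where
  toFun := f
  map_add' := f.map_add
  map_smul' := by
    intro r m
    rw [RingHom.id_apply]
    induction r using MonoidAlgebra.induction_on with
    | of g => exact h g m
    | add a b ha hb => rw [add_smul, add_smul, map_add, ha, hb]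
    | smul z a ha => rw [smul_assoc, map_zsmul, ha, smul_assoc]

/-- the permutation module `ℤX` of a `G`-set `X` -/
def PM (_G X : Type) : Type := X →₀ ℤ

noncomputable instance (G X : Type) : AddCommGroup (PM G X) :=
  inferInstanceAs (AddCommGroup (X →₀ ℤ))

/-- the permutation representation -/
noncomputable def prep (G X : Type) [Group G] [MulAction G X] : G →* Module.End ℤ (X →₀ ℤ) where
  toFun g := Finsupp.lmapDomain ℤ ℤ (fun x => g • x)
  map_one' := by
    ext x
    simp
  map_mul' g h := by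
    ext x
    simp [mul_smul]

noncomputable instance (G X : Type) [Group G] [MulAction G X] :
    Module (MonoidAlgebra ℤ G) (PM G X) :=
  Module.compHom (X →₀ ℤ) (MonoidAlgebra.lift ℤ (Module.End ℤ (X →₀ ℤ)) G (prep G X)).toRingHom

/-- the basis element `x` of `ℤX` -/
noncomputable def pt (G : Type) {X : Type} (x : X) : PM G X := (Finsupp.single x 1 : X →₀ ℤ)

variable {X : Type} [MulAction G X]

theorem of_smul_pt (g : G) (x : X) : MonoidAlgebra.of ℤ G g • pt G x = pt G (g • x) := by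
  change (MonoidAlgebra.lift ℤ (Module.End ℤ (X →₀ ℤ)) G (prep G X)) (MonoidAlgebra.of ℤ G g)
    (Finsupp.single x 1) = Finsupp.single (g • x) 1
  rw [MonoidAlgebra.lift_of]
  simp [prep]

theorem of_smul (g : G) (m : PM G X) :
    MonoidAlgebra.of ℤ G g • m = Finsupp.mapDomain (fun x => g • x) (show X →₀ ℤ from m) := by
  change (MonoidAlgebra.lift ℤ (Module.End ℤ (X →₀ ℤ)) G (prep G X)) (MonoidAlgebra.of ℤ G g) _ = _
  rw [MonoidAlgebra.lift_of]
  rfl

theorem PM_induction {p : PM G X → Prop} (h0 : p 0) (h1 : ∀ x, p (pt G x)) (h2 : ∀ a b, p a → p b → p (a + b))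
    (h3 : ∀ a, p a → p (-a)) (m : PM G X) : p m := by
  have h4 : ∀ (k : ℕ) (x : X), p (k • pt G x) := by
    intro k x
    induction k with
    | zero => rw [zero_smul]; exact h0
    | succ k ih => rw [succ_nsmul]; exact h2 _ _ ih (h1 x)
  refine Finsupp.induction_linear (motive := p) m h0 h2 ?_
  intro x z
  have h5 : (Finsupp.single x z : X →₀ ℤ) = z • (Finsupp.single x 1 : X →₀ ℤ) := by simp
  rw [h5]
  obtain ⟨k, rfl | rfl⟩ := z.eq_nat_or_neg
  · have := h4 k x
    rw [natCast_zsmul]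
    exact this
  · have := h3 _ (h4 k x)
    rw [neg_smul, natCast_zsmul]
    exact this

/-- additive maps out of `ℤX` -/
noncomputable def PMadd (G : Type) {X M : Type} [AddCommGroup M] (f : X → M) : PM G X →+ M :=
  Finsupp.liftAddHom (fun x => (zmultiplesHom M (f x)))

theorem PMadd_pt {M : Type} [AddCommGroup M] (f : X → M) (x : X) : PMadd G f (pt G x) = f x := by
  change Finsupp.liftAddHom _ (Finsupp.single _ _) = _
  rw [Finsupp.liftAddHom_apply_single]
  simp

/-- linear maps out of `ℤX` -/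
noncomputable def PMlift {M : Type} [AddCommGroup M] [Module (MonoidAlgebra ℤ G) M] (f : X → M)
    (hf : ∀ (g : G) (x : X), f (g • x) = MonoidAlgebra.of ℤ G g • f x) :
    PM G X →ₗ[MonoidAlgebra ℤ G] M :=
  mkLin (PMadd G f) (by
    intro g m
    induction m using PM_induction with
    | h0 => rw [smul_zero, map_zero, smul_zero]
    | h1 x => rw [of_smul_pt, PMadd_pt, PMadd_pt, hf]
    | h2 a b ha hb => rw [smul_add, map_add, ha, hb, map_add, smul_add]
    | h3 a ha => rw [smul_neg, map_neg, ha, map_neg, smul_neg])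

theorem PMlift_pt {M : Type} [AddCommGroup M] [Module (MonoidAlgebra ℤ G) M] (f : X → M)
    (hf : ∀ (g : G) (x : X), f (g • x) = MonoidAlgebra.of ℤ G g • f x) (x : X) :
    PMlift f hf (pt G x) = f x := PMadd_pt f x

end pm

/-- the trivial module `ℤ` (that is `ℤX` for a point `X`) has a finite free resolution over `ℤG` -/
def TF (G : Type) [Group G] : Prop := FRf (MonoidAlgebra ℤ G) (PM G PUnit.{1})

/-- torsion-free -/
def NoTor (G : Type) [Group G] : Prop := ∀ g : G, ∀ k : ℕ, 0 < k → g ^ k = 1 → g = 1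

/-- the edges of a graph with an invariant orientation: sources `s`, targets `t` -/
structure OE (G : Type) {V E : Type} [Group G] [MulAction G V] [MulAction G E]
    (T : SimpleGraph V) (s t : E → V) : Prop where
  s_act : ∀ (g : G) (e : E), s (g • e) = g • s e
  t_act : ∀ (g : G) (e : E), t (g • e) = g • t e
  adj : ∀ e, T.Adj (s e) (t e)
  inj : ∀ e e', s e = s e' → t e = t e' → e = e'
  one : ∀ e e', s e = t e' → t e ≠ s e'
  all : ∀ u v, T.Adj u v → ∃ e, (s e = u ∧ t e = v) ∨ (s e = v ∧ t e = u)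

/-- finitely many orbits -/
def FinOrb (G X : Type) [Group G] [MulAction G X] : Prop :=
  ∃ S : Finset X, ∀ y : X, ∃ g : G, ∃ x ∈ S, g • x = y

/-- exactness of `0 → ℤE → ℤV → ℤ → 0` -/
def Ex (G E V : Type) [Group G] [MulAction G V] [MulAction G E] : Prop :=
  ∃ (f : PM G E →ₗ[MonoidAlgebra ℤ G] PM G V)
    (g : PM G V →ₗ[MonoidAlgebra ℤ G] PM G PUnit.{1}), Function.Injective f ∧
    Function.Surjective g ∧ ∀ b, g b = 0 ↔ b ∈ LinearMap.range f

/-! ### Packages: homological algebra -/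

/-- extensions -/
def S_EXT : Prop := ∀ (R : Type) [Ring R] (A B C : Type) [AddCommGroup A] [Module R A]
  [AddCommGroup B] [Module R B] [AddCommGroup C] [Module R C] (f : A →ₗ[R] B) (g : B →ₗ[R] C),
  Function.Injective f → Function.Surjective g → (∀ b, g b = 0 ↔ b ∈ LinearMap.range f) →
  FRf R A → FRf R C → FRf R B

/-- cokernels -/
def S_CONE : Prop := ∀ (R : Type) [Ring R] (A B C : Type) [AddCommGroup A] [Module R A]
  [AddCommGroup B] [Module R B] [AddCommGroup C] [Module R C] (f : A →ₗ[R] B) (g : B →ₗ[R] C),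
  Function.Injective f → Function.Surjective g → (∀ b, g b = 0 ↔ b ∈ LinearMap.range f) →
  FRf R A → FRf R B → FRf R C

/-- induced modules -/
def S_IND : Prop := ∀ (G X : Type) [Group G] [MulAction G X] (x : X),
  (∀ y : X, ∃ g : G, g • x = y) → TF ↥(stabilizer G x) → FRf (MonoidAlgebra ℤ G) (PM G X)

/-- permutation modules -/
def S_PERM : Prop := ∀ (G X : Type) [Group G] [MulAction G X], FinOrb G X →
  (∀ x : X, TF ↥(stabilizer G x)) → FRf (MonoidAlgebra ℤ G) (PM G X)

/-- an invariant orientation -/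
def S_OR : Prop := ∀ (G V : Type) [Group G] [MulAction G V] (T : SimpleGraph V),
  (∀ (g : G) (u v : V), T.Adj u v → T.Adj (g • u) (g • v)) →
  (∀ (g : G) (u v : V), T.Adj u v → g • u = v → g • v ≠ u) →
  ∃ (E : Type) (_ : MulAction G E) (s t : E → V), OE G T s t

/-- the sequence of a tree -/
def S_EX : Prop := ∀ (G V E : Type) [Group G] [MulAction G V] [MulAction G E]
  (T : SimpleGraph V) (s t : E → V), T.IsTree → OE G T s t → Ex G E V

/-- permutation modules of transitive actions with finitely generated stabilizers -/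
def S_FP1 : Prop := ∀ (G X : Type) [Group G] [MulAction G X] (x : X),
  (∀ y : X, ∃ g : G, g • x = y) → Group.FG ↥(stabilizer G x) →
  Module.FinitePresentation (MonoidAlgebra ℤ G) (PM G X)

/-- the converse -/
def S_FP2 : Prop := ∀ (G X : Type) [Group G] [MulAction G X] (x : X),
  (∀ y : X, ∃ g : G, g • x = y) → Module.FinitePresentation (MonoidAlgebra ℤ G) (PM G X) →
  Group.FG ↥(stabilizer G x)

/-- vertex groups are finitely generated if the group and the edge groups are -/
def S_FGV : Prop := ∀ (G E V : Type) [Group G] [MulAction G V] [MulAction G E],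
  Group.FG G → FinOrb G E → Ex G E V → (∀ e : E, Group.FG ↥(stabilizer G e)) →
  ∀ v : V, Group.FG ↥(stabilizer G v)

/-- the trivial group -/
def S_TRIV : Prop := ∀ (G : Type) [Group G] [Subsingleton G], TF G

/-- isomorphic groups -/
def S_ISO : Prop := ∀ (G H : Type) [Group G] [Group H] (_ : G ≃* H), TF G → TF H

/-- the definition of the library -/
def S_FF : Prop := ∀ (G : Type) [Group G], TF G → ∃ N, FFle G N

/-- groups acting on trees -/
def S_TT : Prop := ∀ (G V : Type) [Group G] [MulAction G V] (T : SimpleGraph V),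
  Group.FG G → T.IsTree → (∀ (g : G) (u v : V), T.Adj u v → T.Adj (g • u) (g • v)) →
  (∀ (g : G) (u v : V), T.Adj u v → g • u = v → g • v ≠ u) →
  (∀ u v : V, T.Adj u v → TF ↥(stabilizer G u ⊓ stabilizer G v) ∧
    Group.FG ↥(stabilizer G u ⊓ stabilizer G v)) →
  (∀ v : V, Group.FG ↥(stabilizer G v) → TF ↥(stabilizer G v)) → TF G

/-- abelian groups -/
def S_AB : Prop := ∀ (G : Type) [Group G], (∀ a b : G, a * b = b * a) → Group.FG G → NoTor G → TF G

/-- a tree for `GL_2(ℤ)` -/
def S_FAR : Prop := ∃ (V : Type) (_ : MulAction (GL (Fin 2) ℤ) V) (T : SimpleGraph V),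
  T.IsTree ∧ (∀ (g : GL (Fin 2) ℤ) (u v : V), T.Adj u v → T.Adj (g • u) (g • v)) ∧
  ∀ v : V, Finite ↥(stabilizer (GL (Fin 2) ℤ) v)

/-- subgroups of `GL_2(ℤ)` -/
def S_GZ : Prop := ∀ (G : Type) [Group G] (ρ : G →* GL (Fin 2) ℤ), Function.Injective ρ →
  NoTor G → Group.FG G → TF G

/-! ### Packages: matrices over polynomial rings -/

open MvPolynomial in
/-- the degree valuation -/
def IsDeg (n : ℕ) (D : Pool.Agent.U709.BT.DV (FractionRing (MvPolynomial (Fin n) ℤ))) : Prop :=
  ∀ p : MvPolynomial (Fin n) ℤ, p ≠ 0 →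
    D.v (algebraMap (MvPolynomial (Fin n) ℤ) (FractionRing (MvPolynomial (Fin n) ℤ)) p)
      = - (p.totalDegree : ℤ)

def S_DEG : Prop := ∀ n : ℕ,
  ∃ D : Pool.Agent.U709.BT.DV (FractionRing (MvPolynomial (Fin (n + 1)) ℤ)), IsDeg (n + 1) D

open MvPolynomial in
def S_SQ : Prop := ∀ (n : ℕ) (p q : MvPolynomial (Fin n) ℤ) (τ δ : ℤ), q ≠ 0 →
  (δ = 1 ∨ δ = -1) → p.totalDegree ≤ q.totalDegree →
  (p ^ 2 - C τ * p * q + C δ * q ^ 2 = 0 ∨
    (p ^ 2 - C τ * p * q + C δ * q ^ 2).totalDegree < 2 * q.totalDegree) →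
  1 - τ + δ = 0 ∨ 1 + τ + δ = 0

def S_EDGE : Prop := ∀ (F : Type) [Field F] (D : Pool.Agent.U709.BT.DV F) (u v : D.Vt)
  (h : GL (Fin 2) F), D.tr.Adj u v → D.v h.1.det = 0 → h • u = u → h • v = v →
  ∃ r : F, D.L 0 r ∧ D.L 1 (r ^ 2 - h.1.trace * r + h.1.det)

/-- `1` or `-1` is a zero of the characteristic polynomial -/
def CV {n : ℕ} (h : GL (Fin 2) (MvPolynomial (Fin n) ℤ)) : Prop :=
  1 - h.1.trace + h.1.det = 0 ∨ 1 + h.1.trace + h.1.det = 0

/-- the trace of an element with powers of bounded degree is constant -/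
def S_TRC : Prop := ∀ (n c : ℕ) (h : GL (Fin 2) (MvPolynomial (Fin n) ℤ)),
  (∀ k : ℕ, ∀ i j, ((h ^ k).1 i j).totalDegree ≤ c) → ∃ τ : ℤ, h.1.trace = MvPolynomial.C τ

/-- extension of scalars to the field of fractions -/
noncomputable def toF (n : ℕ) : GL (Fin 2) (MvPolynomial (Fin n) ℤ) →*
    GL (Fin 2) (FractionRing (MvPolynomial (Fin n) ℤ)) :=
  GeneralLinearGroup.map (algebraMap _ _)

/-- elements which fix an edge -/
def S_CV1 : Prop := ∀ (n : ℕ) (D : Pool.Agent.U709.BT.DV (FractionRing (MvPolynomial (Fin n) ℤ))),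
  IsDeg n D → ∀ (u v : D.Vt) (h : GL (Fin 2) (MvPolynomial (Fin n) ℤ)) (τ : ℤ),
  h.1.trace = MvPolynomial.C τ → D.tr.Adj u v → toF n h • u = u → toF n h • v = v → CV h

/-- stabilizers of vertices have bounded degree -/
def S_BD : Prop := ∀ (n : ℕ) (D : Pool.Agent.U709.BT.DV (FractionRing (MvPolynomial (Fin n) ℤ))),
  IsDeg n D → ∀ u : D.Vt, ∃ c : ℕ, ∀ h : GL (Fin 2) (MvPolynomial (Fin n) ℤ),
  toF n h • u = u → ∀ i j, (h.1 i j).totalDegree ≤ c

/-- groups of plus or minus unipotent matrices -/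
def S_UNI : Prop := ∀ (n c : ℕ) (H : Type) [Group H]
  (ρ : H →* GL (Fin 2) (MvPolynomial (Fin n) ℤ)), Function.Injective ρ → NoTor H →
  (∀ h i j, ((ρ h).1 i j).totalDegree ≤ c) → (∀ h, CV (ρ h)) →
  (∀ a b : H, a * b = b * a) ∧ Group.FG H

/-- evaluation at the origin -/
noncomputable def ev0 (n : ℕ) : GL (Fin 2) (MvPolynomial (Fin n) ℤ) →* GL (Fin 2) ℤ :=
  GeneralLinearGroup.map (MvPolynomial.eval (fun _ => (0 : ℤ)))

/-- bounded groups which meet the kernel of the evaluation -/
def S_VERT : Prop := ∀ (n c : ℕ) (H : Type) [Group H]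
  (ρ : H →* GL (Fin 2) (MvPolynomial (Fin n) ℤ)), Function.Injective ρ →
  (∀ h i j, ((ρ h).1 i j).totalDegree ≤ c) → (∃ u : H, u ≠ 1 ∧ ev0 n (ρ u) = 1) →
  ∀ h, CV (ρ h)

/-- the theorem -/
def S_LIN : Prop := ∀ (n : ℕ) (G : Type) [Group G]
  (ρ : G →* GL (Fin 2) (MvPolynomial (Fin n) ℤ)), Function.Injective ρ → NoTor G →
  Group.FG G → TF G

end U722.FF
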