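import Pool.Agent.U722.FF.Stm2
import Pool.Agent.N496.CV.L2Def
import Pool.Agent.RK.Defs

set_option autoImplicit false
set_option linter.unusedSectionVars false

/-! Project LB: the `L²`-Betti numbers of the subgroups of `GL_2(ℤ[x_1..x_n])` vanish above degree one. -/

namespace U722.FF

open TH57.FF Matrix MulAction CategoryTheory Pool.Agent.Helper655.VN

attribute [local instance] V7N.bcF_additive VN831.bcFunctor_additive

/-- `M` has a resolution of finite length by finitely generated free modules (rows, matrices act on the right),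
which is exact in all degrees `≥ k` over the ring `U` -/
def MR {R U : Type} [Ring R] [Ring U] (ψ : R →+* U) (k : ℕ) (M : Type) [AddCommGroup M]
    [Module R M] : Prop :=
  ∃ (N : ℕ) (ι : ℕ → Type) (_ : ∀ n, Fintype (ι n)) (d : ∀ n, Matrix (ι (n + 1)) (ι n) R)
    (ε : (ι 0 → R) →ₗ[R] M),
    (∀ n, N < n → IsEmpty (ι n)) ∧ Function.Surjective ε ∧
    (∀ v : ι 0 → R, ε v = 0 ↔ ∃ w : ι 1 → R, w ᵥ* d 0 = v) ∧
    (∀ (n : ℕ) (v : ι (n + 1) → R), v ᵥ* d n = 0 ↔ ∃ w : ι (n + 2) → R, w ᵥ* d (n + 1) = v) ∧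
    (k = 0 → ∀ v : ι 0 → U, ∃ w : ι 1 → U, w ᵥ* (d 0).map ψ = v) ∧
    (∀ n : ℕ, k ≤ n + 1 → ∀ v : ι (n + 1) → U, v ᵥ* (d n).map ψ = 0 →
      ∃ w : ι (n + 2) → U, w ᵥ* (d (n + 1)).map ψ = v)

/-- cokernels -/
def S_MCONE : Prop := ∀ (R U : Type) [Ring R] [Ring U] (ψ : R →+* U) (k : ℕ) (A B C : Type)
  [AddCommGroup A] [Module R A] [AddCommGroup B] [Module R B] [AddCommGroup C] [Module R C]
  (f : A →ₗ[R] B) (g : B →ₗ[R] C), Function.Injective f → Function.Surjective g →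
  (∀ b, g b = 0 ↔ b ∈ LinearMap.range f) → MR ψ k A → MR ψ (k + 1) B → MR ψ (k + 1) C

/-- direct sums -/
def S_MPROD : Prop := ∀ (R U : Type) [Ring R] [Ring U] (ψ : R →+* U) (k : ℕ) (A B : Type)
  [AddCommGroup A] [Module R A] [AddCommGroup B] [Module R B], MR ψ k A → MR ψ k B →
  MR ψ k (A × B)

/-- induced modules -/
def S_MIND : Prop := ∀ (G X U : Type) [Group G] [MulAction G X] [Ring U] (c : G →* U) (k : ℕ)
  (x : X), (∀ y : X, ∃ g : G, g • x = y) →
  MR (V7N.evM (c.comp (stabilizer G x).subtype)) k (PM ↥(stabilizer G x) PUnit.{1}) →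
  MR (V7N.evM c) k (PM G X)

/-- permutation modules -/
def S_MPERM : Prop := ∀ (G X U : Type) [Group G] [MulAction G X] [Ring U] (c : G →* U) (k : ℕ),
  FinOrb G X → (∀ x : X, MR (V7N.evM (c.comp (stabilizer G x).subtype)) k
    (PM ↥(stabilizer G x) PUnit.{1})) → MR (V7N.evM c) k (PM G X)

/-- groups with a central element `z` such that `1 - z` is invertible over `U` -/
def S_MZ : Prop := ∀ (H U : Type) [Group H] [Ring U] (c : H →* U) (z : H),
  (∀ g : H, z * g = g * z) → IsUnit (1 - c z) → TF H → MR (V7N.evM c) 0 (PM H PUnit.{1})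

/-- above the length of the resolution -/
def S_MFR : Prop := ∀ (R U : Type) [Ring R] [Ring U] (ψ : R →+* U) (n : ℕ) (M : Type)
  [AddCommGroup M] [Module R M], FR R n M → MR ψ (n + 1) M

/-- the homology of `G` with coefficients in `U` (via `c`) vanishes in degree `n` -/
def HZ {G U : Type} [Group G] [Ring U] (c : G →* U) (n : ℕ) : Prop :=
  Limits.IsZero (((V7N.bcF c).leftDerived n).obj (V7N.trivG G))

/-- directed unions -/
def S_DIRU : Prop := ∀ (G U : Type) [Group G] [Ring U] (c : G →* U) (k : ℕ),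
  (∀ H : Subgroup G, Group.FG H →
    MR (V7N.evM (c.comp H.subtype)) k (PM H PUnit.{1})) → ∀ n, k ≤ n → HZ c n

/-- subgroups of finite index -/
def S_FINI : Prop := ∀ (G U : Type) [Group G] [Ring U] (c : G →* U) (N : Subgroup G),
  N.index ≠ 0 → IsUnit ((N.index : ℕ) : U) → ∀ n, HZ (c.comp N.subtype) n → HZ c n

/-- localisation -/
def S_LOCZ : Prop := ∀ (G U : Type) [Group G] [Ring U] (ι : NG G →+* U), Pool.Agent.RK.Loc ι →
  ∀ n, HZ ((ι : NG G →* U).comp canL) n → VN831.l2Betti G n = 0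

/-- free resolutions by matrices -/
def S_MFRES : Prop := ∀ (G U : Type) [Group G] [Ring U] (c : G →* U) (k : ℕ),
  MR (V7N.evM c) k (PM G PUnit.{1}) → ∃ C : V7N.FreeRes G, (∃ N, ∀ n, N < n → C.r n = 0) ∧
    (k = 0 → ∀ v : Fin (C.r 0) → U, ∃ w : Fin (C.r 1) → U, w ᵥ* (C.d 0).map (V7N.evM c) = v) ∧
    (∀ n : ℕ, k ≤ n + 1 → ∀ v : Fin (C.r (n + 1)) → U, v ᵥ* (C.d n).map (V7N.evM c) = 0 →
      ∃ w : Fin (C.r (n + 2)) → U, w ᵥ* (C.d (n + 1)).map (V7N.evM c) = v)

/-- exactness over the localisation -/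
def S_ML2 : Prop := ∀ (G U : Type) [Group G] [Ring U] (ι : NG G →+* U), Pool.Agent.RK.Loc ι →
  ∀ (C : V7N.FreeRes G) (n : ℕ), (∀ v : Fin (C.r (n + 1)) → U,
    v ᵥ* (C.d n).map (V7N.evM ((ι : NG G →* U).comp canL)) = 0 →
      ∃ w : Fin (C.r (n + 2)) → U, w ᵥ* (C.d (n + 1)).map (V7N.evM ((ι : NG G →* U).comp canL)) = v) →
  VN831.l2Betti G (n + 1) = 0

end U722.FF
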