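import Pool.Agent.U722.FF.Stm2
import Pool.Agent.U722.FF.Fin

set_option autoImplicit false
set_option linter.unusedSectionVars false
set_option linter.style.haveILetI false

/-! Structure of torsion-free subgroups of `GL_2(ℤ[x_1..x_n])`. -/

namespace U722.FF

open TH57.FF Matrix MulAction Pool.Agent.U709.BT

theorem t_CO (h4 : S_OR) (h5 : S_EX) (h6 : S_FGV) : ∀ (G V : Type) [Group G] [MulAction G V]
    (T : SimpleGraph V) (P Q : ∀ (H : Type) [Group H], Prop),
    Group.FG G → T.IsTree → (∀ (g : G) (u v : V), T.Adj u v → T.Adj (g • u) (g • v)) →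
    (∀ (g : G) (u v : V), T.Adj u v → g • u = v → g • v ≠ u) →
    (∀ u v : V, T.Adj u v → Q ↥(stabilizer G u ⊓ stabilizer G v) ∧
      Group.FG ↥(stabilizer G u ⊓ stabilizer G v)) →
    (∀ v : V, Group.FG ↥(stabilizer G v) → P ↥(stabilizer G v)) → OnTree G P Q := by
  classical
  intro G V _ _ T P Q hfg hT hact hinv hedge hvert
  obtain ⟨o⟩ : Nonempty V := hT.connected.nonempty
  obtain ⟨W, iW, T', ι, Φ, hS, ⟨w0, hw0⟩, hΦ, hfin⟩ := Pool.Agent.N509.TX.fg_subtree hT hact hfg o
  obtain ⟨E, iE, s, t, hO⟩ := h4 G W T' hS.act (by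
    intro g u v huv h1 h2
    refine hinv g (ι u) (ι v) (hS.adj _ _ huv) ?_ ?_
    · rw [← hS.eqv, h1]
    · rw [← hS.eqv, h2])
  have hEx := h5 G W E T' s t hS.tree hO
  -- orbits of edges
  have key : ∀ (e e' : E) (φ : V × V), (∃ h : G, (h • ι (s e), h • ι (t e)) = φ) →
      (∃ h : G, (h • ι (s e'), h • ι (t e')) = φ) → ∃ g : G, g • e = e' := by
    rintro e e' φ ⟨h, hh⟩ ⟨h', hh'⟩
    refine ⟨h'⁻¹ * h, hO.inj _ _ ?_ ?_⟩
    · apply hS.inj
      rw [hO.s_act, hS.eqv, mul_smul, inv_smul_eq_iff]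
      exact (congrArg Prod.fst hh).trans (congrArg Prod.fst hh').symm
    · apply hS.inj
      rw [hO.t_act, hS.eqv, mul_smul, inv_smul_eq_iff]
      exact (congrArg Prod.snd hh).trans (congrArg Prod.snd hh').symm
  obtain ⟨SE, hSE⟩ : ∃ S : Finset E, ∀ y : E, ∃ g : G, ∃ x ∈ S, g • x = y := by
    let P' : V × V → Prop := fun φ => ∃ e : E, ∃ h : G, (h • ι (s e), h • ι (t e)) = φ
    let Ψ : Finset (V × V) := Φ ∪ Φ.image Prod.swap
    let S : Finset E := Ψ.attach.biUnion fun φ => if hp : P' φ then {hp.choose} else ∅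
    refine ⟨S, fun y => ?_⟩
    obtain ⟨h, hh⟩ := hfin _ _ (hO.adj y)
    have h1 : (h • ι (s y), h • ι (t y)) ∈ Ψ := by
      rcases hh with hh | hh
      · exact Finset.mem_union_left _ hh
      · refine Finset.mem_union_right _ (Finset.mem_image.2 ⟨_, hh, rfl⟩)
    have hp : P' (h • ι (s y), h • ι (t y)) := ⟨y, h, rfl⟩
    obtain ⟨g, hg⟩ := key hp.choose y _ hp.choose_spec ⟨h, rfl⟩
    refine ⟨g, hp.choose, ?_, hg⟩
    rw [Finset.mem_biUnion]
    refine ⟨⟨_, h1⟩, Finset.mem_attach _ _, ?_⟩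
    rw [dif_pos hp]
    exact Finset.mem_singleton_self _
  have hFE : FinOrb G E := ⟨SE, hSE⟩
  have hFW : FinOrb G W := by
    refine ⟨{w0} ∪ (SE.image s ∪ SE.image t), fun y => ?_⟩
    by_cases hy : y = w0
    · exact ⟨1, w0, by simp, by rw [one_smul, hy]⟩
    · obtain ⟨p⟩ := hS.tree.connected.preconnected y w0
      cases p with
      | nil => exact absurd rfl hy
      | cons hadj _ =>
        obtain ⟨e, he⟩ := hO.all _ _ hadj
        obtain ⟨g, x, hx, hgx⟩ := hSE e
        rcases he with ⟨he, -⟩ | ⟨-, he⟩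
        · refine ⟨g, s x, ?_, ?_⟩
          · exact Finset.mem_union_right _ (Finset.mem_union_left _ (Finset.mem_image_of_mem _ hx))
          · rw [← hO.s_act, hgx, he]
        · refine ⟨g, t x, ?_, ?_⟩
          · exact Finset.mem_union_right _ (Finset.mem_union_right _ (Finset.mem_image_of_mem _ hx))
          · rw [← hO.t_act, hgx, he]
  have hst : ∀ e : E, stabilizer G e = stabilizer G (ι (s e)) ⊓ stabilizer G (ι (t e)) := by
    intro e
    ext g
    rw [Subgroup.mem_inf, mem_stabilizer_iff, mem_stabilizer_iff, mem_stabilizer_iff]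
    constructor
    · intro h
      exact ⟨by rw [← hS.eqv, ← hO.s_act, h], by rw [← hS.eqv, ← hO.t_act, h]⟩
    · rintro ⟨h, h'⟩
      refine hO.inj _ _ (hS.inj ?_) (hS.inj ?_)
      · rw [hO.s_act, hS.eqv, h]
      · rw [hO.t_act, hS.eqv, h']
  have hEd : ∀ e : E, Q ↥(stabilizer G e) ∧ Group.FG ↥(stabilizer G e) := by
    intro e
    rw [hst]
    exact hedge _ _ (hS.adj _ _ (hO.adj e))
  have hV1 := h6 G E W hfg hFE hEx (fun e => (hEd e).2)
  have hV2 : ∀ w : W, P ↥(stabilizer G w) := by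
    intro w
    have := hV1 w
    rw [hS.stab] at this ⊢
    exact hvert _ this
  exact ⟨W, E, iW, iE, T', s, t, hS.tree, hO, hFW, hFE, hV2, fun e => (hEd e).1⟩

theorem CO : ∀ (G V : Type) [Group G] [MulAction G V]
    (T : SimpleGraph V) (P Q : ∀ (H : Type) [Group H], Prop),
    Group.FG G → T.IsTree → (∀ (g : G) (u v : V), T.Adj u v → T.Adj (g • u) (g • v)) →
    (∀ (g : G) (u v : V), T.Adj u v → g • u = v → g • v ≠ u) →
    (∀ u v : V, T.Adj u v → Q ↥(stabilizer G u ⊓ stabilizer G v) ∧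
      Group.FG ↥(stabilizer G u ⊓ stabilizer G v)) →
    (∀ v : V, Group.FG ↥(stabilizer G v) → P ↥(stabilizer G v)) → OnTree G P Q := t_CO OR EX FGV

/-- subgroups of `GL_2(ℤ)` -/
theorem GZ_tree (h3 : S_FAR) (G : Type) [Group G] (ρ : G →* GL (Fin 2) ℤ)
    (hρ : Function.Injective ρ) (hnt : NoTor G) (hfg : Group.FG G)
    (P Q : ∀ (H : Type) [Group H], Prop) (hP : ∀ (H : Type) [Group H] [Subsingleton H], P H)
    (hQ : ∀ (H : Type) [Group H] [Subsingleton H], Q H) : OnTree G P Q := by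
  obtain ⟨V, iV, T, hT, hact, hfin⟩ := h3
  let _ : MulAction G V := MulAction.compHom V ρ
  have hsm : ∀ (g : G) (v : V), g • v = ρ g • v := fun g v => rfl
  have htriv : ∀ v : V, Subsingleton ↥(stabilizer G v) := by
    intro v
    have hfin' : Finite ↥(stabilizer G v) := by
      have := hfin v
      refine Finite.of_injective (fun x : ↥(stabilizer G v) =>
        (⟨ρ x.1, x.2⟩ : ↥(stabilizer (GL (Fin 2) ℤ) v))) ?_
      intro x y hxy
      exact Subtype.ext (hρ (congrArg Subtype.val hxy))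
    refine ⟨fun x y => ?_⟩
    have h0 : ∀ x : ↥(stabilizer G v), x = 1 := by
      intro x
      obtain ⟨k, hk, hx⟩ := isOfFinOrder_iff_pow_eq_one.1 (isOfFinOrder_of_finite x)
      exact NoTor_le (Subgroup.subtype _) (Subgroup.subtype_injective _) hnt x k hk hx
    rw [h0 x, h0 y]
  refine CO G V T P Q hfg hT (fun g u v h => hact (ρ g) u v h) ?_ ?_ ?_
  · intro g u v huv h4 h5
    have h6 : g ^ 2 ∈ stabilizer G u := by
      rw [mem_stabilizer_iff, pow_two, mul_smul, h4, h5]
    have := htriv u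
    have h7 : g ^ 2 = 1 := congrArg Subtype.val (Subsingleton.elim (⟨g ^ 2, h6⟩ : ↥(stabilizer G u)) 1)
    have h8 := hnt g 2 two_pos h7
    rw [h8, one_smul] at h4
    rw [h4] at huv
    exact T.loopless.irrefl _ huv
  · intro u v huv
    have := htriv u
    have : Subsingleton ↥(stabilizer G u ⊓ stabilizer G v) := by
      refine ⟨fun x y => Subtype.ext ?_⟩
      have h9 : (⟨x.1, x.2.1⟩ : ↥(stabilizer G u)) = ⟨y.1, y.2.1⟩ := Subsingleton.elim _ _
      exact congrArg (fun z : ↥(stabilizer G u) => z.1) h9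
    exact ⟨hQ _, inferInstance⟩
  · intro v _
    have := htriv v
    exact hP _

/-- the structure theorem -/
theorem STR (n : ℕ) (G : Type) [Group G] (ρ : G →* GL (Fin 2) (MvPolynomial (Fin n) ℤ))
    (hρ : Function.Injective ρ) (hnt : NoTor G) (hfg : Group.FG G)
    (P Q : ∀ (H : Type) [Group H], Prop)
    (hP : ∀ H : Subgroup G, Group.FG H → (∀ a b : H, a * b = b * a) → P H)
    (hQ : ∀ H : Subgroup G, Group.FG H → (∀ a b : H, a * b = b * a) → Q H)
    (hP' : ∀ H : Subgroup G, Group.FG H → (∃ σ : H →* GL (Fin 2) ℤ, Function.Injective σ) → P H)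
    (hP1 : ∀ (H : Type) [Group H] [Subsingleton H], P H)
    (hQ1 : ∀ (H : Type) [Group H] [Subsingleton H], Q H) : OnTree G P Q := by
  cases n with
  | zero =>
    have hev : Function.Injective (ev0 0) := by
      intro a b hab
      apply Units.ext
      ext1 i j
      have h9 : (ev0 0 a).1 = (ev0 0 b).1 := congrArg (fun x : GL (Fin 2) ℤ => x.1) hab
      have h10 : MvPolynomial.eval (fun _ => (0 : ℤ)) (a.1 i j)
          = MvPolynomial.eval (fun _ => (0 : ℤ)) (b.1 i j) := congrFun (congrFun h9 i) j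
      rw [MvPolynomial.eq_C_of_isEmpty (a.1 i j), MvPolynomial.eq_C_of_isEmpty (b.1 i j)] at h10 ⊢
      rw [MvPolynomial.eval_C, MvPolynomial.eval_C] at h10
      rw [h10]
    exact GZ_tree FAR G ((ev0 0).comp ρ) (hev.comp hρ) hnt hfg P Q hP1 hQ1
  | succ n =>
    obtain ⟨D, hD⟩ := DEG n
    let _ : MulAction G D.Vt := MulAction.compHom D.Vt ((toF (n + 1)).comp ρ)
    have hsm : ∀ (g : G) (v : D.Vt), g • v = toF (n + 1) (ρ g) • v := fun g v => rfl
    have hb : ∀ (u : D.Vt) (H : Subgroup G), H ≤ stabilizer G u → ∃ c : ℕ, ∀ (h : H) (i j),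
        ((ρ h.1).1 i j).totalDegree ≤ c := by
      intro u H hH
      obtain ⟨c, hc⟩ := BD (n + 1) D hD u
      exact ⟨c, fun h i j => hc (ρ h.1) (hH h.2) i j⟩
    have hcv : ∀ (u v : D.Vt), D.tr.Adj u v → ∀ h : ↥(stabilizer G u ⊓ stabilizer G v),
        CV (ρ h.1) := by
      intro u v huv h
      obtain ⟨c, hc⟩ := hb u (stabilizer G u ⊓ stabilizer G v) inf_le_left
      obtain ⟨τ, hτ⟩ := TRC (n + 1) c (ρ h.1) (fun k i j => by
        have := hc (h ^ k) i j
        rwa [Subgroup.coe_pow, map_pow] at this)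
      exact CV1 (n + 1) D hD u v (ρ h.1) τ hτ huv h.2.1 h.2.2
    refine CO G D.Vt D.tr P Q hfg D.isTree (fun g u v h => D.tr_act _ u v h) ?_ ?_ ?_
    · intro g u v huv h10 _
      exact no_inv D _ (toF_v D hD (ρ g)) u v huv h10
    · intro u v huv
      obtain ⟨c, hc⟩ := hb u (stabilizer G u ⊓ stabilizer G v) inf_le_left
      have hinj : Function.Injective (ρ.comp (Subgroup.subtype (stabilizer G u ⊓ stabilizer G v))) :=
        hρ.comp (Subgroup.subtype_injective _)
      have hnt' := NoTor_le (Subgroup.subtype (stabilizer G u ⊓ stabilizer G v))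
        (Subgroup.subtype_injective _) hnt
      obtain ⟨h11, h12⟩ := UNI (n + 1) c _ _ hinj hnt' (fun h i j => hc h i j) (fun h => hcv u v huv h)
      exact ⟨hQ _ h12 h11, h12⟩
    · intro u hfgu
      obtain ⟨c, hc⟩ := hb u (stabilizer G u) le_rfl
      have hinj : Function.Injective (ρ.comp (Subgroup.subtype (stabilizer G u))) :=
        hρ.comp (Subgroup.subtype_injective _)
      have hnt' := NoTor_le (Subgroup.subtype (stabilizer G u)) (Subgroup.subtype_injective _) hnt
      by_cases hk : ∃ x : ↥(stabilizer G u), x ≠ 1 ∧ ev0 (n + 1) (ρ x.1) = 1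
      · have h10 := VERT (n + 1) c _ (ρ.comp (Subgroup.subtype (stabilizer G u))) hinj
          (fun h i j => hc h i j) hk
        obtain ⟨h11, h12⟩ := UNI (n + 1) c _ _ hinj hnt' (fun h i j => hc h i j) h10
        exact hP _ h12 h11
      · push Not at hk
        refine hP' _ hfgu ⟨(ev0 (n + 1)).comp (ρ.comp (Subgroup.subtype (stabilizer G u))), ?_⟩
        rw [injective_iff_map_eq_one]
        intro x hx
        by_contra hx1
        exact hk x hx1 hx

end U722.FF
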